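import Mathlib
import Pool.Agent.Helper32.CL.Defs

/-!
Project CL (MP_b2fa09_gt), module AS: derivatives of the certificate functions (`δ = 0`).
-/

set_option autoImplicit false

namespace Helper23.CA

open Helper35.PI Helper35.PI2 Helper32.CL
open scoped ContDiff Topology BigOperators

/-- a linear form on `ℝ³` -/
noncomputable def lf3 (a b c : ℝ) : (ℝ × ℝ × ℝ) →L[ℝ] ℝ :=
  a • ContinuousLinearMap.fst ℝ ℝ (ℝ × ℝ)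
    + b • (ContinuousLinearMap.fst ℝ ℝ ℝ).comp (ContinuousLinearMap.snd ℝ ℝ (ℝ × ℝ))
    + c • (ContinuousLinearMap.snd ℝ ℝ ℝ).comp (ContinuousLinearMap.snd ℝ ℝ (ℝ × ℝ))

@[simp] lemma lf3_apply (a b c : ℝ) (v : ℝ × ℝ × ℝ) :
    lf3 a b c v = a * v.1 + b * v.2.1 + c * v.2.2 := by
  simp [lf3]

/-- a Laurent monomial `X^i Z^j (Y⁻¹)^k Y^l` and its derivative -/
lemma hd_mono (i j k l : ℕ) (p : ℝ × ℝ × ℝ) (hY : p.2.1 ≠ 0) :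
    HasFDerivAt (fun p : ℝ × ℝ × ℝ => p.1 ^ i * p.2.2 ^ j * (p.2.1⁻¹) ^ k * p.2.1 ^ l)
      (lf3 (i * p.1 ^ (i - 1) * p.2.2 ^ j * (p.2.1⁻¹) ^ k * p.2.1 ^ l)
        (p.1 ^ i * p.2.2 ^ j * (-(k * (p.2.1⁻¹) ^ (k + 1)) * p.2.1 ^ l
          + (p.2.1⁻¹) ^ k * (l * p.2.1 ^ (l - 1))))
        (p.1 ^ i * (j * p.2.2 ^ (j - 1)) * (p.2.1⁻¹) ^ k * p.2.1 ^ l)) p := by
  have hX : HasFDerivAt (fun p : ℝ × ℝ × ℝ => p.1) (ContinuousLinearMap.fst ℝ ℝ (ℝ × ℝ)) p :=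
    hasFDerivAt_fst
  have hYd : HasFDerivAt (fun p : ℝ × ℝ × ℝ => p.2.1)
      ((ContinuousLinearMap.fst ℝ ℝ ℝ).comp (ContinuousLinearMap.snd ℝ ℝ (ℝ × ℝ))) p :=
    hasFDerivAt_fst.comp p hasFDerivAt_snd
  have hZ : HasFDerivAt (fun p : ℝ × ℝ × ℝ => p.2.2)
      ((ContinuousLinearMap.snd ℝ ℝ ℝ).comp (ContinuousLinearMap.snd ℝ ℝ (ℝ × ℝ))) p :=
    hasFDerivAt_snd.comp p hasFDerivAt_snd
  have hI : HasFDerivAt (fun p : ℝ × ℝ × ℝ => (p.2.1)⁻¹)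
      ((-(p.2.1 ^ 2)⁻¹) • ((ContinuousLinearMap.fst ℝ ℝ ℝ).comp
        (ContinuousLinearMap.snd ℝ ℝ (ℝ × ℝ)))) p :=
    (hasDerivAt_inv hY).comp_hasFDerivAt p hYd
  have hXi := (hasDerivAt_pow i p.1).comp_hasFDerivAt p hX
  have hZj := (hasDerivAt_pow j p.2.2).comp_hasFDerivAt p hZ
  have hIk := (hasDerivAt_pow k (p.2.1)⁻¹).comp_hasFDerivAt p hI
  have hYl := (hasDerivAt_pow l p.2.1).comp_hasFDerivAt p hYd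
  have h := ((hXi.mul hZj).mul hIk).mul hYl
  refine h.congr_fderiv ?_
  ext <;> simp
  · ring
  · rcases k with _ | k
    · simp
    · simp; field_simp; ring
  · ring

/-- sums of Laurent monomials; `c * X^i Z^j Y^(-k) Y^l` -/
noncomputable def mo (i j k l : ℕ) (p : ℝ × ℝ × ℝ) : ℝ :=
  p.1 ^ i * p.2.2 ^ j * (p.2.1⁻¹) ^ k * p.2.1 ^ l

lemma hd_mo (i j k l : ℕ) (p : ℝ × ℝ × ℝ) (hY : p.2.1 ≠ 0) :
    HasFDerivAt (mo i j k l)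
      (lf3 (i * p.1 ^ (i - 1) * p.2.2 ^ j * (p.2.1⁻¹) ^ k * p.2.1 ^ l)
        (p.1 ^ i * p.2.2 ^ j * (-(k * (p.2.1⁻¹) ^ (k + 1)) * p.2.1 ^ l
          + (p.2.1⁻¹) ^ k * (l * p.2.1 ^ (l - 1))))
        (p.1 ^ i * (j * p.2.2 ^ (j - 1)) * (p.2.1⁻¹) ^ k * p.2.1 ^ l)) p :=
  hd_mono i j k l p hY

lemma ev_ne (p : ℝ × ℝ × ℝ) (hY : p.2.1 ≠ 0) : ∀ᶠ q in 𝓝 p, q.2.1 ≠ 0 :=
  (continuous_fst.comp continuous_snd).continuousAt.eventually_ne hY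

lemma fD_eq (p : ℝ × ℝ × ℝ) (hY : p.2.1 ≠ 0) : fD 0 p = 13 / 80 * mo 1 0 0 0 p
    + (-43 / 320) * mo 0 1 1 0 p + (-9 / 640) * mo 0 0 0 1 p + 7 / 40 * mo 1 1 2 0 p
    + (-7 / 40) * mo 0 2 3 0 p := by
  simp only [fD, rp, mp, dn, mo]
  field_simp
  ring

/-- `∂_X f` -/
noncomputable def FX (p : ℝ × ℝ × ℝ) : ℝ := 13 / 80 * mo 0 0 0 0 p + 7 / 40 * mo 0 1 2 0 p
/-- `∂_Y f` -/
noncomputable def FY (p : ℝ × ℝ × ℝ) : ℝ := 43 / 320 * mo 0 1 2 0 p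
  + (-9 / 640) * mo 0 0 0 0 p + (-7 / 20) * mo 1 1 3 0 p + 21 / 40 * mo 0 2 4 0 p
/-- `∂_Z f` -/
noncomputable def FZ (p : ℝ × ℝ × ℝ) : ℝ := (-43 / 320) * mo 0 0 1 0 p
  + 7 / 40 * mo 1 0 2 0 p + (-7 / 20) * mo 0 1 3 0 p

lemma hd_fD (p : ℝ × ℝ × ℝ) (hY : p.2.1 ≠ 0) :
    HasFDerivAt (fD 0) (lf3 (FX p) (FY p) (FZ p)) p := by
  have h := (((((hd_mo 1 0 0 0 p hY).const_mul (13 / 80)).add
    ((hd_mo 0 1 1 0 p hY).const_mul (-43 / 320))).add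
    ((hd_mo 0 0 0 1 p hY).const_mul (-9 / 640))).add
    ((hd_mo 1 1 2 0 p hY).const_mul (7 / 40))).add
    ((hd_mo 0 2 3 0 p hY).const_mul (-7 / 40))
  have h2 : HasFDerivAt (fD 0) _ p := h.congr_of_eventuallyEq (by
    filter_upwards [ev_ne p hY] with q hq
    exact fD_eq q hq)
  refine h2.congr_fderiv ?_
  ext <;> simp [FX, FY, FZ, mo] <;> ring

lemma hd_FX (p : ℝ × ℝ × ℝ) (hY : p.2.1 ≠ 0) :
    HasFDerivAt FX (lf3 0 (-7 / 20 * mo 0 1 3 0 p) (7 / 40 * mo 0 0 2 0 p)) p := by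
  have h := ((hd_mo 0 0 0 0 p hY).const_mul (13 / 80)).add
    ((hd_mo 0 1 2 0 p hY).const_mul (7 / 40))
  refine h.congr_fderiv ?_
  ext <;> simp [mo] <;> ring

lemma hd_FY (p : ℝ × ℝ × ℝ) (hY : p.2.1 ≠ 0) :
    HasFDerivAt FY (lf3 (-7 / 20 * mo 0 1 3 0 p)
      (-43 / 160 * mo 0 1 3 0 p + 21 / 20 * mo 1 1 4 0 p - 21 / 10 * mo 0 2 5 0 p)
      (43 / 320 * mo 0 0 2 0 p - 7 / 20 * mo 1 0 3 0 p + 21 / 20 * mo 0 1 4 0 p)) p := by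
  have h := ((((hd_mo 0 1 2 0 p hY).const_mul (43 / 320)).add
    ((hd_mo 0 0 0 0 p hY).const_mul (-9 / 640))).add
    ((hd_mo 1 1 3 0 p hY).const_mul (-7 / 20))).add
    ((hd_mo 0 2 4 0 p hY).const_mul (21 / 40))
  refine h.congr_fderiv ?_
  ext <;> simp [mo] <;> ring

lemma hd_FZ (p : ℝ × ℝ × ℝ) (hY : p.2.1 ≠ 0) :
    HasFDerivAt FZ (lf3 (7 / 40 * mo 0 0 2 0 p)
      (43 / 320 * mo 0 0 2 0 p - 7 / 20 * mo 1 0 3 0 p + 21 / 20 * mo 0 1 4 0 p)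
      (-7 / 20 * mo 0 0 3 0 p)) p := by
  have h := (((hd_mo 0 0 1 0 p hY).const_mul (-43 / 320)).add
    ((hd_mo 1 0 2 0 p hY).const_mul (7 / 40))).add
    ((hd_mo 0 1 3 0 p hY).const_mul (-7 / 20))
  refine h.congr_fderiv ?_
  ext <;> simp [mo] <;> ring

lemma a1D_eq (p : ℝ × ℝ × ℝ) (hY : p.2.1 ≠ 0) : a1D 0 p = -23 / 20 * mo 0 2 4 0 p
    + 327 / 800 * mo 0 1 2 0 p + 53 / 8000 * mo 0 0 0 0 p + (-7 / 20) * mo 1 1 3 0 p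
    + (-1 / 10) * mo 1 0 1 0 p := by
  simp only [a1D, rp, mp, dn, mo]
  field_simp
  ring

lemma hd_a1D (p : ℝ × ℝ × ℝ) (hY : p.2.1 ≠ 0) :
    HasFDerivAt (a1D 0) (lf3 (-7 / 20 * mo 0 1 3 0 p - 1 / 10 * mo 0 0 1 0 p)
      (23 / 5 * mo 0 2 5 0 p - 327 / 400 * mo 0 1 3 0 p + 21 / 20 * mo 1 1 4 0 p
        + 1 / 10 * mo 1 0 2 0 p)
      (-23 / 10 * mo 0 1 4 0 p + 327 / 800 * mo 0 0 2 0 p - 7 / 20 * mo 1 0 3 0 p)) p := by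
  have h := (((((hd_mo 0 2 4 0 p hY).const_mul (-23 / 20)).add
    ((hd_mo 0 1 2 0 p hY).const_mul (327 / 800))).add
    ((hd_mo 0 0 0 0 p hY).const_mul (53 / 8000))).add
    ((hd_mo 1 1 3 0 p hY).const_mul (-7 / 20))).add
    ((hd_mo 1 0 1 0 p hY).const_mul (-1 / 10))
  have h2 : HasFDerivAt (a1D 0) _ p := h.congr_of_eventuallyEq (by
    filter_upwards [ev_ne p hY] with q hq
    exact a1D_eq q hq)
  refine h2.congr_fderiv ?_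
  ext <;> simp [mo] <;> ring

lemma a2D_eq (p : ℝ × ℝ × ℝ) (hY : p.2.1 ≠ 0) : a2D 0 p = -7 / 40 * mo 0 2 3 0 p
    + (-11 / 320) * mo 0 1 1 0 p + (-53 / 16000) * mo 0 0 0 1 p + 7 / 40 * mo 1 1 2 0 p
    + 1 / 20 * mo 1 0 0 0 p := by
  simp only [a2D, fD, rp, mp, dn, mo]
  field_simp
  ring

lemma hd_a2D (p : ℝ × ℝ × ℝ) (hY : p.2.1 ≠ 0) :
    HasFDerivAt (a2D 0) (lf3 (7 / 40 * mo 0 1 2 0 p + 1 / 20 * mo 0 0 0 0 p)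
      (21 / 40 * mo 0 2 4 0 p + 11 / 320 * mo 0 1 2 0 p - 53 / 16000 * mo 0 0 0 0 p
        - 7 / 20 * mo 1 1 3 0 p)
      (-7 / 20 * mo 0 1 3 0 p - 11 / 320 * mo 0 0 1 0 p + 7 / 40 * mo 1 0 2 0 p)) p := by
  have h := (((((hd_mo 0 2 3 0 p hY).const_mul (-7 / 40)).add
    ((hd_mo 0 1 1 0 p hY).const_mul (-11 / 320))).add
    ((hd_mo 0 0 0 1 p hY).const_mul (-53 / 16000))).add
    ((hd_mo 1 1 2 0 p hY).const_mul (7 / 40))).add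
    ((hd_mo 1 0 0 0 p hY).const_mul (1 / 20))
  have h2 : HasFDerivAt (a2D 0) _ p := h.congr_of_eventuallyEq (by
    filter_upwards [ev_ne p hY] with q hq
    exact a2D_eq q hq)
  refine h2.congr_fderiv ?_
  ext <;> simp [mo] <;> ring

lemma a3D_eq (p : ℝ × ℝ × ℝ) (hY : p.2.1 ≠ 0) : a3D 0 p = 3 / 2 * mo 0 1 3 0 p
    + (-17 / 50) * mo 0 0 1 0 p := by
  simp only [a3D, mp, dn, mo]
  field_simp
  ring

lemma hd_a3D (p : ℝ × ℝ × ℝ) (hY : p.2.1 ≠ 0) :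
    HasFDerivAt (a3D 0) (lf3 0 (-9 / 2 * mo 0 1 4 0 p + 17 / 50 * mo 0 0 2 0 p)
      (3 / 2 * mo 0 0 3 0 p)) p := by
  have h := ((hd_mo 0 1 3 0 p hY).const_mul (3 / 2)).add
    ((hd_mo 0 0 1 0 p hY).const_mul (-17 / 50))
  have h2 : HasFDerivAt (a3D 0) _ p := h.congr_of_eventuallyEq (by
    filter_upwards [ev_ne p hY] with q hq
    exact a3D_eq q hq)
  refine h2.congr_fderiv ?_
  ext <;> simp [mo] <;> ring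

/-! ### The functions `φ` on `ℝ⁴` -/

/-- projection to `(X,Y,Z)` -/
noncomputable def pr3 : (ℝ × ℝ × ℝ × ℝ) →L[ℝ] (ℝ × ℝ × ℝ) :=
  (ContinuousLinearMap.fst ℝ ℝ (ℝ × ℝ × ℝ)).prod
    (((ContinuousLinearMap.fst ℝ ℝ (ℝ × ℝ)).comp
        (ContinuousLinearMap.snd ℝ ℝ (ℝ × ℝ × ℝ))).prod
      (((ContinuousLinearMap.fst ℝ ℝ ℝ).comp (ContinuousLinearMap.snd ℝ ℝ (ℝ × ℝ))).comp
        (ContinuousLinearMap.snd ℝ ℝ (ℝ × ℝ × ℝ))))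

@[simp] lemma pr3_apply (p : ℝ × ℝ × ℝ × ℝ) : pr3 p = (p.1, p.2.1, p.2.2.1) := rfl

lemma phi_eq : (cD 0).φ = fun p => fD 0 (pr3 p) := rfl

lemma fd_phi (p v : ℝ × ℝ × ℝ × ℝ) (hY : p.2.1 ≠ 0) : fderiv ℝ (cD 0).φ p v
    = FX (pr3 p) * v.1 + FY (pr3 p) * v.2.1 + FZ (pr3 p) * v.2.2.1 := by
  have h : HasFDerivAt (cD 0).φ _ p := (hd_fD (pr3 p) hY).comp p pr3.hasFDerivAt
  rw [h.fderiv]
  simp

lemma fd2_phi (p v : ℝ × ℝ × ℝ × ℝ) (hY : p.2.1 ≠ 0) :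
    fderiv ℝ (fun y => fderiv ℝ (cD 0).φ y v) p v
    = 2 * (-7 / 20 * mo 0 1 3 0 (pr3 p)) * (v.1 * v.2.1)
      + 2 * (7 / 40 * mo 0 0 2 0 (pr3 p)) * (v.1 * v.2.2.1)
      + (-43 / 160 * mo 0 1 3 0 (pr3 p) + 21 / 20 * mo 1 1 4 0 (pr3 p)
        - 21 / 10 * mo 0 2 5 0 (pr3 p)) * v.2.1 ^ 2
      + 2 * (43 / 320 * mo 0 0 2 0 (pr3 p) - 7 / 20 * mo 1 0 3 0 (pr3 p)
        + 21 / 20 * mo 0 1 4 0 (pr3 p)) * (v.2.1 * v.2.2.1)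
      + (-7 / 20 * mo 0 0 3 0 (pr3 p)) * v.2.2.1 ^ 2 := by
  have e : (fun y => fderiv ℝ (cD 0).φ y v) =ᶠ[𝓝 p] fun y =>
      FX (pr3 y) * v.1 + FY (pr3 y) * v.2.1 + FZ (pr3 y) * v.2.2.1 := by
    have : ∀ᶠ q : ℝ × ℝ × ℝ × ℝ in 𝓝 p, q.2.1 ≠ 0 :=
      (continuous_fst.comp continuous_snd).continuousAt.eventually_ne hY
    filter_upwards [this] with q hq
    exact fd_phi q v hq
  rw [e.fderiv_eq]
  have h1 := ((hd_FX (pr3 p) hY).comp p pr3.hasFDerivAt).mul_const v.1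
  have h2 := ((hd_FY (pr3 p) hY).comp p pr3.hasFDerivAt).mul_const v.2.1
  have h3 := ((hd_FZ (pr3 p) hY).comp p pr3.hasFDerivAt).mul_const v.2.2.1
  have h := (h1.add h2).add h3
  have h' : HasFDerivAt (fun y => FX (pr3 y) * v.1 + FY (pr3 y) * v.2.1
    + FZ (pr3 y) * v.2.2.1) _ p := h
  rw [h'.fderiv]
  simp
  ring

section Jets

variable {n N : ℕ}

lemma gph_eq (l : ℝ) (A : Fin n → Fin n → EE N) (T : Fin n → Fin n → Fin n → EE N)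
    (ν : EE N) (v : Fin n → ℝ) (k : Fin n) (hpos : 0 < YY A) :
    gph l (cD 0) A T ν v k = FX (J3 A) * gX A T k + FY (J3 A) * gY A T k
      + FZ (J3 A) * gZ A T k := by
  unfold gph
  rw [fd_phi _ _ (by simpa [J4] using hpos.ne')]
  simp [J4, J3, g4]

lemma hph_eq (l : ℝ) (A : Fin n → Fin n → EE N) (T : Fin n → Fin n → Fin n → EE N)
    (ν : EE N) (v : Fin n → ℝ) (hpos : 0 < YY A) :
    hph l (cD 0) A T ν v = FX (J3 A) * hX A T + FY (J3 A) * hY A T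
      + FZ (J3 A) * hZ A T - ∑ k, (2 * (-7 / 20 * mo 0 1 3 0 (J3 A)) * (gX A T k * gY A T k)
      + 2 * (7 / 40 * mo 0 0 2 0 (J3 A)) * (gX A T k * gZ A T k)
      + (-43 / 160 * mo 0 1 3 0 (J3 A) + 21 / 20 * mo 1 1 4 0 (J3 A)
        - 21 / 10 * mo 0 2 5 0 (J3 A)) * gY A T k ^ 2
      + 2 * (43 / 320 * mo 0 0 2 0 (J3 A) - 7 / 20 * mo 1 0 3 0 (J3 A)
        + 21 / 20 * mo 0 1 4 0 (J3 A)) * (gY A T k * gZ A T k)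
      + (-7 / 20 * mo 0 0 3 0 (J3 A)) * gZ A T k ^ 2) := by
  unfold hph
  rw [fd_phi _ _ (by simpa [J4] using hpos.ne')]
  congr 1
  refine Finset.sum_congr rfl fun k _ => ?_
  rw [fd2_phi _ _ (by simpa [J4] using hpos.ne')]
  simp [J4, J3, g4]

end Jets

end Helper23.CA
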