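import Mathlib
import Pool.Agent.Helper32.CL.St4
import Pool.Agent.Helper23.CA.Dv

/-!
Project CL (MP_b2fa09_gt), module AS: `Ig` on the jets of self-shrinkers, general form.
-/

set_option autoImplicit false

namespace Helper23.CA

open Helper35.PI Helper35.PI2 Helper32.CL
open scoped ContDiff Topology BigOperators

variable {N : ℕ}

/-- the coefficients at `δ = 0` satisfy `a₁ Y + a₃ Z + 2 a₂ = 0` -/
lemma a123 (p : ℝ × ℝ × ℝ) (hY : p.2.1 ≠ 0) :
    a1D 0 p * p.2.1 + a3D 0 p * p.2.2 + 2 * a2D 0 p = 0 := by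
  rw [a1D_eq p hY, a2D_eq p hY, a3D_eq p hY]
  simp only [mo]
  field_simp
  ring

lemma inner_Uv_Hv (A : Fin 2 → Fin 2 → EE N) : (inner ℝ (Uv A) (Hv A) : ℝ) = ZZ A := by
  simp only [Uv, ZZ, Fin.sum_univ_two, inner_add_left, real_inner_smul_left, zz]
  ring

theorem Ig_shr (A : Fin 2 → Fin 2 → EE N) (T : Fin 2 → Fin 2 → Fin 2 → EE N)
    (v : Fin 2 → ℝ) (l : ℝ) (hpos : 0 < YY A) (hs : ∀ k, et T k = ∑ a, v a • A k a) :
    Ig 1 l 0 A T (-(Hv A)) v
      = -(FX (J3 A) * hX A T + FY (J3 A) * hY A T + FZ (J3 A) * hZ A T)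
        + (∑ k, (2 * (-7 / 20 * mo 0 1 3 0 (J3 A)) * (gX A T k * gY A T k)
          + 2 * (7 / 40 * mo 0 0 2 0 (J3 A)) * (gX A T k * gZ A T k)
          + (-43 / 160 * mo 0 1 3 0 (J3 A) + 21 / 20 * mo 1 1 4 0 (J3 A)
            - 21 / 10 * mo 0 2 5 0 (J3 A)) * gY A T k ^ 2
          + 2 * (43 / 320 * mo 0 0 2 0 (J3 A) - 7 / 20 * mo 1 0 3 0 (J3 A)
            + 21 / 20 * mo 0 1 4 0 (J3 A)) * (gY A T k * gZ A T k)
          + (-7 / 20 * mo 0 0 3 0 (J3 A)) * gZ A T k ^ 2))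
        - (∑ k, v k * (FX (J3 A) * gX A T k + FY (J3 A) * gY A T k + FZ (J3 A) * gZ A T k))
        + (∑ k, (fderiv ℝ (a1D 0) (J3 A) (g3 A T k) * (gY A T k / 2)
          + fderiv ℝ (a3D 0) (J3 A) (g3 A T k) * inner ℝ (Uv A) (et T k)
          + fderiv ℝ (a2D 0) (J3 A) (g3 A T k) * v k))
        + a1D 0 (J3 A) * eq2 T
        + a3D 0 (J3 A) * ((inner ℝ (dU A T 0) (et T 0) : ℝ) + inner ℝ (dU A T 1) (et T 1))
        - (a1D 0 (J3 A) * ZZ A + a3D 0 (J3 A) * inner ℝ (Uv A) (Uv A))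
        - a2D 0 (J3 A) * (YY A + ∑ k, v k ^ 2)
        + fD 0 (J3 A) * (YY A + ∑ k, v k ^ 2) := by
  have hne : (J3 A).2.1 ≠ 0 := by simpa [J3] using hpos.ne'
  have e123 := a123 (J3 A) hne
  simp only [J3] at e123
  have eUH := inner_Uv_Hv A
  have h1 : ∀ w : EE N, ∀ k, (∑ a, (inner ℝ w (A k a) : ℝ) * v a) = inner ℝ w (et T k) := by
    intro w k
    rw [hs k, inner_sum]
    refine Finset.sum_congr rfl fun a _ => ?_
    rw [real_inner_smul_right]; ring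
  have h2 : ∀ w : EE N, (∑ k, ∑ a, (inner ℝ w (A k a) : ℝ)
      * ((if k = a then 1 else 0) + inner ℝ (-(Hv A)) (A k a)))
      = inner ℝ w (Hv A) - inner ℝ w (Uv A) := by
    intro w
    simp only [Fin.sum_univ_two, Uv, inner_add_right, real_inner_smul_right, inner_neg_left, zz]
    simp only [Hv, Fin.sum_univ_two, inner_add_right, inner_add_left,
      real_inner_comm (A 0 0) (A 0 1), real_inner_comm (A 0 0) (A 1 0),
      real_inner_comm (A 0 0) (A 1 1), real_inner_comm (A 1 1) (A 0 1),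
      real_inner_comm (A 1 1) (A 1 0)]
    simp
    ring
  have h3 : (∑ k, (1 + (inner ℝ (-(Hv A)) (A k k) : ℝ))) = 2 - YY A := by
    have : (inner ℝ (Hv A) (Hv A) : ℝ) = YY A := by rw [YY, real_inner_self_eq_norm_sq]
    rw [← this]
    conv_rhs => rw [Hv]
    simp only [Fin.sum_univ_two, inner_neg_left, Hv, inner_add_right]
    ring
  have hYY : (inner ℝ (Hv A) (Hv A) : ℝ) = YY A := by rw [YY, real_inner_self_eq_norm_sq]
  have hgY : ∀ k, (inner ℝ (Hv A) (et T k) : ℝ) = gY A T k / 2 := by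
    intro k; rw [gY]; ring
  -- the divergence of `V`
  have hdV : dVa 1 (cD 0) A T (-(Hv A)) v
      = (∑ k, (inner ℝ (dNa (cD 0) A T k) (et T k) : ℝ))
        + (inner ℝ (Na (cD 0) A) (Hv A) - inner ℝ (Na (cD 0) A) (Uv A))
        + (∑ a, (inner ℝ (Na (cD 0) A) (et T a) : ℝ) * v a)
        + (∑ k, fderiv ℝ (a2D 0) (J3 A) (g3 A T k) * v k) + a2D 0 (J3 A) * (2 - YY A) := by
    unfold dVa
    rw [← h2 (Na (cD 0) A), ← h3]
    simp only [← h1]
    have : (cD 0).a₂ = a2D 0 := rfl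
    rw [this]
    simp only [Fin.sum_univ_two, one_mul]
    ring
  have hVa : (∑ k, v k * Va 1 (cD 0) A v k)
      = (∑ a, (inner ℝ (Na (cD 0) A) (et T a) : ℝ) * v a) + a2D 0 (J3 A) * ∑ k, v k ^ 2 := by
    unfold Va
    simp only [h1]
    have : (cD 0).a₂ = a2D 0 := rfl
    rw [this]
    simp only [Fin.sum_univ_two, one_mul]
    ring
  have hNaH : (inner ℝ (Na (cD 0) A) (Hv A) : ℝ) + 2 * a2D 0 (J3 A) = 0 := by
    unfold Na
    rw [inner_add_left, real_inner_smul_left, real_inner_smul_left, hYY, eUH]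
    have t1 : (cD 0).a₁ = a1D 0 := rfl
    have t3 : (cD 0).a₃ = a3D 0 := rfl
    rw [t1, t3]
    simp only [J3]
    linarith
  have hNaU : (inner ℝ (Na (cD 0) A) (Uv A) : ℝ)
      = a1D 0 (J3 A) * ZZ A + a3D 0 (J3 A) * inner ℝ (Uv A) (Uv A) := by
    unfold Na
    rw [inner_add_left, real_inner_smul_left, real_inner_smul_left,
      real_inner_comm (Uv A) (Hv A), eUH]
    rfl
  have hdN : (∑ k, (inner ℝ (dNa (cD 0) A T k) (et T k) : ℝ))
      = (∑ k, (fderiv ℝ (a1D 0) (J3 A) (g3 A T k) * (gY A T k / 2)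
          + fderiv ℝ (a3D 0) (J3 A) (g3 A T k) * inner ℝ (Uv A) (et T k)))
        + a1D 0 (J3 A) * eq2 T
        + a3D 0 (J3 A) * ((inner ℝ (dU A T 0) (et T 0) : ℝ) + inner ℝ (dU A T 1) (et T 1)) := by
    unfold dNa eq2
    have t1 : (cD 0).a₁ = a1D 0 := rfl
    have t3 : (cD 0).a₃ = a3D 0 := rfl
    rw [t1, t3]
    simp only [Fin.sum_univ_two, inner_add_left, real_inner_smul_left, hgY,
      real_inner_self_eq_norm_sq]
    ring
  unfold Ig dvA
  rw [hph_eq l A T _ v hpos, hdV, hVa]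
  simp only [gph_eq l A T _ v _ hpos]
  rw [hdN, hNaU]
  have hnu : ‖-(Hv A)‖ ^ 2 = YY A := by rw [norm_neg]; rfl
  have hin : (inner ℝ (-(Hv A)) (Hv A) : ℝ) = -YY A := by rw [inner_neg_left, hYY]
  rw [hnu, hin]
  simp only [Fin.sum_univ_two]
  linear_combination hNaH

end Helper23.CA
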