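import Mathlib
import Pool.Agent.Helper32.CL.Defs

/-!
Project CL (MP_b2fa09_gt), module AS: the jets of a self-shrinking surface in reduced variables.
`A₀₀ = H/2 + P`, `A₁₁ = H/2 - P`, `A₀₁ = Q`, `P = h₁ H + β₁`, `Q = -(h₂ H + β₂)`,
`x = v₁ + i v₂`, `C = ∇_{e₁ - i e₂} φ = [p + x̄ h/2 + x (h² - σ)] H + (N₁ + i N₂)
+ (2 h x + x̄/2) (β₁ + i β₂)`.
-/

set_option autoImplicit false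

namespace Helper23.CA

open Helper35.PI Helper35.PI2 Helper32.CL
open scoped ContDiff Topology BigOperators

/-- reduced variables -/
structure Rv where
  (Y h1 h2 b1 b2 b3 v1 v2 p1 p2 w11 w12 w21 w22 n11 n12 n22 : ℝ)

/-- Gram matrix -/
structure Gr {N : ℕ} (r : Rv) (H B₁ B₂ N₁ N₂ : EE N) : Prop where
  gHH : (inner ℝ H H : ℝ) = r.Y
  gH1 : (inner ℝ H B₁ : ℝ) = 0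
  gH2 : (inner ℝ H B₂ : ℝ) = 0
  gH3 : (inner ℝ H N₁ : ℝ) = 0
  gH4 : (inner ℝ H N₂ : ℝ) = 0
  g11 : (inner ℝ B₁ B₁ : ℝ) = r.Y * r.b1
  g22 : (inner ℝ B₂ B₂ : ℝ) = r.Y * r.b2
  g12 : (inner ℝ B₁ B₂ : ℝ) = r.Y * r.b3
  g13 : (inner ℝ B₁ N₁ : ℝ) = r.Y * r.w11
  g23 : (inner ℝ B₂ N₁ : ℝ) = r.Y * r.w12
  g14 : (inner ℝ B₁ N₂ : ℝ) = r.Y * r.w21
  g24 : (inner ℝ B₂ N₂ : ℝ) = r.Y * r.w22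
  g33 : (inner ℝ N₁ N₁ : ℝ) = r.Y * r.n11
  g34 : (inner ℝ N₁ N₂ : ℝ) = r.Y * r.n12
  g44 : (inner ℝ N₂ N₂ : ℝ) = r.Y * r.n22

/-- a linear combination -/
noncomputable def lc {N : ℕ} (H B₁ B₂ N₁ N₂ : EE N) (a₀ a₁ a₂ a₃ a₄ : ℝ) : EE N :=
  a₀ • H + a₁ • B₁ + a₂ • B₂ + a₃ • N₁ + a₄ • N₂

lemma lc_add {N : ℕ} (H B₁ B₂ N₁ N₂ : EE N) (a₀ a₁ a₂ a₃ a₄ b₀ b₁ b₂ b₃ b₄ : ℝ) :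
    lc H B₁ B₂ N₁ N₂ a₀ a₁ a₂ a₃ a₄ + lc H B₁ B₂ N₁ N₂ b₀ b₁ b₂ b₃ b₄
      = lc H B₁ B₂ N₁ N₂ (a₀ + b₀) (a₁ + b₁) (a₂ + b₂) (a₃ + b₃) (a₄ + b₄) := by
  simp only [lc]; module

lemma lc_smul {N : ℕ} (H B₁ B₂ N₁ N₂ : EE N) (c a₀ a₁ a₂ a₃ a₄ : ℝ) :
    c • lc H B₁ B₂ N₁ N₂ a₀ a₁ a₂ a₃ a₄
      = lc H B₁ B₂ N₁ N₂ (c * a₀) (c * a₁) (c * a₂) (c * a₃) (c * a₄) := by
  simp only [lc]; module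

/-- the bilinear form of the Gram matrix, divided by `Y` -/
noncomputable def bl (r : Rv) (a₀ a₁ a₂ a₃ a₄ b₀ b₁ b₂ b₃ b₄ : ℝ) : ℝ :=
  a₀ * b₀ + r.b1 * (a₁ * b₁) + r.b2 * (a₂ * b₂) + r.b3 * (a₁ * b₂ + a₂ * b₁)
    + r.w11 * (a₁ * b₃ + a₃ * b₁) + r.w12 * (a₂ * b₃ + a₃ * b₂)
    + r.w21 * (a₁ * b₄ + a₄ * b₁) + r.w22 * (a₂ * b₄ + a₄ * b₂)
    + r.n11 * (a₃ * b₃) + r.n12 * (a₃ * b₄ + a₄ * b₃) + r.n22 * (a₄ * b₄)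

lemma inner_lc {N : ℕ} {r : Rv} {H B₁ B₂ N₁ N₂ : EE N} (g : Gr r H B₁ B₂ N₁ N₂)
    (a₀ a₁ a₂ a₃ a₄ b₀ b₁ b₂ b₃ b₄ : ℝ) :
    (inner ℝ (lc H B₁ B₂ N₁ N₂ a₀ a₁ a₂ a₃ a₄) (lc H B₁ B₂ N₁ N₂ b₀ b₁ b₂ b₃ b₄) : ℝ)
      = r.Y * bl r a₀ a₁ a₂ a₃ a₄ b₀ b₁ b₂ b₃ b₄ := by
  have s1 : (inner ℝ B₁ H : ℝ) = 0 := by rw [real_inner_comm]; exact g.gH1
  have s2 : (inner ℝ B₂ H : ℝ) = 0 := by rw [real_inner_comm]; exact g.gH2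
  have s3 : (inner ℝ N₁ H : ℝ) = 0 := by rw [real_inner_comm]; exact g.gH3
  have s4 : (inner ℝ N₂ H : ℝ) = 0 := by rw [real_inner_comm]; exact g.gH4
  have s5 : (inner ℝ B₂ B₁ : ℝ) = r.Y * r.b3 := by rw [real_inner_comm]; exact g.g12
  have s6 : (inner ℝ N₁ B₁ : ℝ) = r.Y * r.w11 := by rw [real_inner_comm]; exact g.g13
  have s7 : (inner ℝ N₁ B₂ : ℝ) = r.Y * r.w12 := by rw [real_inner_comm]; exact g.g23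
  have s8 : (inner ℝ N₂ B₁ : ℝ) = r.Y * r.w21 := by rw [real_inner_comm]; exact g.g14
  have s9 : (inner ℝ N₂ B₂ : ℝ) = r.Y * r.w22 := by rw [real_inner_comm]; exact g.g24
  have s10 : (inner ℝ N₂ N₁ : ℝ) = r.Y * r.n12 := by rw [real_inner_comm]; exact g.g34
  simp only [lc, inner_add_left, inner_add_right, real_inner_smul_left, real_inner_smul_right,
    s1, s2, s3, s4, s5, s6, s7, s8, s9, s10, g.gHH, g.gH1, g.gH2, g.gH3, g.gH4, g.g11, g.g22,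
    g.g12, g.g13, g.g23, g.g14, g.g24, g.g33, g.g34, g.g44, bl]
  ring

/-- real part of `p + x̄ h/2 + x (h² - σ)` -/
noncomputable def ka1 (r : Rv) : ℝ := r.p1 + 1 / 2 * (r.v1 * r.h1 + r.v2 * r.h2)
  + r.v1 * (r.h1 ^ 2 - r.h2 ^ 2 - (r.b1 - r.b2)) - r.v2 * (2 * r.h1 * r.h2 - 2 * r.b3)
/-- imaginary part of `p + x̄ h/2 + x (h² - σ)` -/
noncomputable def ka2 (r : Rv) : ℝ := r.p2 + 1 / 2 * (r.v1 * r.h2 - r.v2 * r.h1)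
  + r.v1 * (2 * r.h1 * r.h2 - 2 * r.b3) + r.v2 * (r.h1 ^ 2 - r.h2 ^ 2 - (r.b1 - r.b2))
/-- real part of `2 h x + x̄/2` -/
noncomputable def la1 (r : Rv) : ℝ := 2 * (r.h1 * r.v1 - r.h2 * r.v2) + r.v1 / 2
/-- imaginary part of `2 h x + x̄/2` -/
noncomputable def la2 (r : Rv) : ℝ := 2 * (r.h1 * r.v2 + r.h2 * r.v1) - r.v2 / 2

/-- the jets -/
structure Jt {N : ℕ} (r : Rv) (H B₁ B₂ N₁ N₂ : EE N) (A : Fin 2 → Fin 2 → EE N)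
    (T : Fin 2 → Fin 2 → Fin 2 → EE N) (v : Fin 2 → ℝ) : Prop where
  gr : Gr r H B₁ B₂ N₁ N₂
  a00 : A 0 0 = lc H B₁ B₂ N₁ N₂ (1 / 2 + r.h1) 1 0 0 0
  a11 : A 1 1 = lc H B₁ B₂ N₁ N₂ (1 / 2 - r.h1) (-1) 0 0 0
  a01 : A 0 1 = lc H B₁ B₂ N₁ N₂ (-r.h2) 0 (-1) 0 0
  a10 : A 1 0 = lc H B₁ B₂ N₁ N₂ (-r.h2) 0 (-1) 0 0
  v0 : v 0 = r.v1
  v1 : v 1 = r.v2
  t000 : T 0 0 0 = lc H B₁ B₂ N₁ N₂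
    ((3 * (r.v1 * (1 / 2 + r.h1) - r.v2 * r.h2) + 2 * ka1 r) / 4)
    ((3 * r.v1 + 2 * la1 r) / 4) ((-3 * r.v2 - 2 * la2 r) / 4) (1 / 2) 0
  t011 : T 0 1 1 = lc H B₁ B₂ N₁ N₂
    (((r.v1 * (1 / 2 + r.h1) - r.v2 * r.h2) - 2 * ka1 r) / 4)
    ((r.v1 - 2 * la1 r) / 4) ((-r.v2 + 2 * la2 r) / 4) (-1 / 2) 0
  t001 : T 0 0 1 = lc H B₁ B₂ N₁ N₂
    (((-r.v1 * r.h2 + r.v2 * (1 / 2 - r.h1)) - 2 * ka2 r) / 4)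
    ((-r.v2 - 2 * la2 r) / 4) ((-r.v1 - 2 * la1 r) / 4) 0 (-1 / 2)
  t111 : T 1 1 1 = lc H B₁ B₂ N₁ N₂
    ((3 * (-r.v1 * r.h2 + r.v2 * (1 / 2 - r.h1)) + 2 * ka2 r) / 4)
    ((-3 * r.v2 + 2 * la2 r) / 4) ((-3 * r.v1 + 2 * la1 r) / 4) 0 (1 / 2)
  s010 : T 0 1 0 = T 0 0 1
  s100 : T 1 0 0 = T 0 0 1
  s101 : T 1 0 1 = T 0 1 1
  s110 : T 1 1 0 = T 0 1 1

section

variable {N : ℕ} {r : Rv} {H B₁ B₂ N₁ N₂ : EE N} {A : Fin 2 → Fin 2 → EE N}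
  {T : Fin 2 → Fin 2 → Fin 2 → EE N} {v : Fin 2 → ℝ}

lemma Jt.Hv_eq (j : Jt r H B₁ B₂ N₁ N₂ A T v) : Hv A = lc H B₁ B₂ N₁ N₂ 1 0 0 0 0 := by
  simp only [Hv, Fin.sum_univ_two, j.a00, j.a11, lc_add]
  congr 1 <;> ring

lemma Jt.YY_eq (j : Jt r H B₁ B₂ N₁ N₂ A T v) : YY A = r.Y := by
  rw [YY, j.Hv_eq, ← real_inner_self_eq_norm_sq, inner_lc j.gr]
  simp only [bl]; ring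

lemma Jt.et0 (j : Jt r H B₁ B₂ N₁ N₂ A T v) : et T 0 = lc H B₁ B₂ N₁ N₂
    (r.v1 * (1 / 2 + r.h1) - r.v2 * r.h2) r.v1 (-r.v2) 0 0 := by
  simp only [et, Fin.sum_univ_two, j.t000, j.s110, j.t011, lc_add]
  congr 1 <;> ring

lemma Jt.et1 (j : Jt r H B₁ B₂ N₁ N₂ A T v) : et T 1 = lc H B₁ B₂ N₁ N₂
    (-r.v1 * r.h2 + r.v2 * (1 / 2 - r.h1)) (-r.v2) (-r.v1) 0 0 := by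
  simp only [et, Fin.sum_univ_two, j.t001, j.t111, lc_add]
  congr 1 <;> ring

lemma Jt.z00 (j : Jt r H B₁ B₂ N₁ N₂ A T v) : zz A 0 0 = r.Y * (1 / 2 + r.h1) := by
  rw [zz, j.Hv_eq, j.a00, inner_lc j.gr]; simp only [bl]; ring
lemma Jt.z11 (j : Jt r H B₁ B₂ N₁ N₂ A T v) : zz A 1 1 = r.Y * (1 / 2 - r.h1) := by
  rw [zz, j.Hv_eq, j.a11, inner_lc j.gr]; simp only [bl]; ring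
lemma Jt.z01 (j : Jt r H B₁ B₂ N₁ N₂ A T v) : zz A 0 1 = r.Y * (-r.h2) := by
  rw [zz, j.Hv_eq, j.a01, inner_lc j.gr]; simp only [bl]; ring
lemma Jt.z10 (j : Jt r H B₁ B₂ N₁ N₂ A T v) : zz A 1 0 = r.Y * (-r.h2) := by
  rw [zz, j.Hv_eq, j.a10, inner_lc j.gr]; simp only [bl]; ring

/-- `|A|²/Y` -/
noncomputable def qXX (r : Rv) : ℝ :=
    (1/2) + 2*r.b1 + 2*r.b2 + 2*r.h1^2 + 2*r.h2^2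

/-- `Z/Y²` -/
noncomputable def qZZ (r : Rv) : ℝ :=
    (1/2) + 2*r.h1^2 + 2*r.h2^2

lemma Jt.XX_eq (j : Jt r H B₁ B₂ N₁ N₂ A T v) : XX A = r.Y * qXX r := by
  simp only [XX, Fin.sum_univ_two, ← real_inner_self_eq_norm_sq, j.a00, j.a01, j.a10, j.a11,
    inner_lc j.gr, bl, qXX]
  ring

lemma Jt.ZZ_eq (j : Jt r H B₁ B₂ N₁ N₂ A T v) : ZZ A = r.Y ^ 2 * qZZ r := by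
  simp only [ZZ, Fin.sum_univ_two, j.z00, j.z01, j.z10, j.z11, qZZ]
  ring

/-- `gz/Y` -/
noncomputable def qgz000 (r : Rv) : ℝ :=
    (5/8)*r.v1 + (1/2)*r.p1 + 2*r.h1*r.v1 + (-1)*r.h2*r.v2 + (1/2)*r.b1*r.v1 + (1/2)*r.b2*r.v1
    + (3/2)*r.h1^2*r.v1 + (-2)*r.h1*r.h2*r.v2 + (-1/2)*r.h2^2*r.v1

lemma Jt.gz000 (j : Jt r H B₁ B₂ N₁ N₂ A T v) : gz A T 0 0 0 = r.Y * qgz000 r := by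
  simp only [gz, j.Hv_eq, j.t000, j.et0, j.a00, inner_lc j.gr, bl, ka1, ka2, la1, la2, qgz000]
  ring

/-- `gz/Y` -/
noncomputable def qgz001 (r : Rv) : ℝ :=
    (3/8)*r.v2 + (-1/2)*r.p2 + (-1)*r.h2*r.v1 + (-1/2)*r.b1*r.v2 + (-1/2)*r.b2*r.v2
    + (-3/2)*r.h1^2*r.v2 + (-2)*r.h1*r.h2*r.v1 + (1/2)*r.h2^2*r.v2

lemma Jt.gz001 (j : Jt r H B₁ B₂ N₁ N₂ A T v) : gz A T 0 0 1 = r.Y * qgz001 r := by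
  simp only [gz, j.Hv_eq, j.t001, j.et1, j.a00, inner_lc j.gr, bl, ka1, ka2, la1, la2, qgz001]
  ring

/-- `gz/Y` -/
noncomputable def qgz010 (r : Rv) : ℝ :=
    (1/8)*r.v2 + (-1/2)*r.p2 + (-1)*r.h2*r.v1 + (1/2)*r.b1*r.v2 + (1/2)*r.b2*r.v2
    + (-1/2)*r.h1^2*r.v2 + (-2)*r.h1*r.h2*r.v1 + (3/2)*r.h2^2*r.v2

lemma Jt.gz010 (j : Jt r H B₁ B₂ N₁ N₂ A T v) : gz A T 0 1 0 = r.Y * qgz010 r := by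
  simp only [gz, j.Hv_eq, j.s010, j.t001, j.et0, j.a01, inner_lc j.gr, bl, ka1, ka2, la1, la2, qgz010]
  ring

/-- `gz/Y` -/
noncomputable def qgz011 (r : Rv) : ℝ :=
    (1/8)*r.v1 + (-1/2)*r.p1 + (-1)*r.h2*r.v2 + (1/2)*r.b1*r.v1 + (1/2)*r.b2*r.v1
    + (-1/2)*r.h1^2*r.v1 + 2*r.h1*r.h2*r.v2 + (3/2)*r.h2^2*r.v1

lemma Jt.gz011 (j : Jt r H B₁ B₂ N₁ N₂ A T v) : gz A T 0 1 1 = r.Y * qgz011 r := by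
  simp only [gz, j.Hv_eq, j.t011, j.et1, j.a01, inner_lc j.gr, bl, ka1, ka2, la1, la2, qgz011]
  ring

/-- `gz/Y` -/
noncomputable def qgz110 (r : Rv) : ℝ :=
    (3/8)*r.v1 + (-1/2)*r.p1 + (-1)*r.h2*r.v2 + (-1/2)*r.b1*r.v1 + (-1/2)*r.b2*r.v1
    + (-3/2)*r.h1^2*r.v1 + 2*r.h1*r.h2*r.v2 + (1/2)*r.h2^2*r.v1

lemma Jt.gz110 (j : Jt r H B₁ B₂ N₁ N₂ A T v) : gz A T 1 1 0 = r.Y * qgz110 r := by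
  simp only [gz, j.Hv_eq, j.s110, j.t011, j.et0, j.a11, inner_lc j.gr, bl, ka1, ka2, la1, la2, qgz110]
  ring

/-- `gz/Y` -/
noncomputable def qgz111 (r : Rv) : ℝ :=
    (5/8)*r.v2 + (1/2)*r.p2 + (-2)*r.h1*r.v2 + (-1)*r.h2*r.v1 + (1/2)*r.b1*r.v2
    + (1/2)*r.b2*r.v2 + (3/2)*r.h1^2*r.v2 + 2*r.h1*r.h2*r.v1 + (-1/2)*r.h2^2*r.v2

lemma Jt.gz111 (j : Jt r H B₁ B₂ N₁ N₂ A T v) : gz A T 1 1 1 = r.Y * qgz111 r := by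
  simp only [gz, j.Hv_eq, j.t111, j.et1, j.a11, inner_lc j.gr, bl, ka1, ka2, la1, la2, qgz111]
  ring

lemma Jt.gz100 (j : Jt r H B₁ B₂ N₁ N₂ A T v) : gz A T 1 0 0 = r.Y * qgz010 r := by
  simp only [gz, j.Hv_eq, j.s100, j.t001, j.et0, j.a10, inner_lc j.gr, bl, ka1, ka2, la1, la2, qgz010]
  ring

lemma Jt.gz101 (j : Jt r H B₁ B₂ N₁ N₂ A T v) : gz A T 1 0 1 = r.Y * qgz011 r := by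
  simp only [gz, j.Hv_eq, j.s101, j.t011, j.et1, j.a10, inner_lc j.gr, bl, ka1, ka2, la1, la2, qgz011]
  ring

/-- `gX/Y` -/
noncomputable def qgX0 (r : Rv) : ℝ :=
    (1/2)*r.v1 + 2*r.w11 + 2*r.w22 + (3/2)*r.h1*r.v1 + 2*r.h1*r.p1 + (-3/2)*r.h2*r.v2
    + 2*r.h2*r.p2 + 2*r.b1*r.v1 + 2*r.b2*r.v1 + 2*r.h1^2*r.v1 + 2*r.h1*r.b1*r.v1
    + 6*r.h1*r.b2*r.v1 + 4*r.h1*r.b3*r.v2 + 2*r.h2^2*r.v1 + (-6)*r.h2*r.b1*r.v2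
    + (-2)*r.h2*r.b2*r.v2 + (-4)*r.h2*r.b3*r.v1 + 2*r.h1^3*r.v1 + (-2)*r.h1^2*r.h2*r.v2
    + 2*r.h1*r.h2^2*r.v1 + (-2)*r.h2^3*r.v2

/-- `gY/Y` -/
noncomputable def qgY0 (r : Rv) : ℝ :=
    r.v1 + 2*r.h1*r.v1 + (-2)*r.h2*r.v2

/-- `gZ/Y²` -/
noncomputable def qgZ0 (r : Rv) : ℝ :=
    r.v1 + (5/2)*r.h1*r.v1 + 2*r.h1*r.p1 + (-5/2)*r.h2*r.v2 + 2*r.h2*r.p2 + 4*r.h1^2*r.v1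
    + 2*r.h1*r.b1*r.v1 + 2*r.h1*r.b2*r.v1 + 4*r.h2^2*r.v1 + (-2)*r.h2*r.b1*r.v2
    + (-2)*r.h2*r.b2*r.v2 + 6*r.h1^3*r.v1 + (-6)*r.h1^2*r.h2*r.v2 + 6*r.h1*r.h2^2*r.v1
    + (-6)*r.h2^3*r.v2

lemma Jt.gX0 (j : Jt r H B₁ B₂ N₁ N₂ A T v) : gX A T 0 = r.Y * qgX0 r := by
  simp only [gX, Fin.sum_univ_two, j.t000, j.s010, j.t001, j.s100, j.s110, j.t011, j.a00, j.a01, j.a10, j.a11, inner_lc j.gr, bl,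
    ka1, ka2, la1, la2, qgX0]
  ring

lemma Jt.gY0 (j : Jt r H B₁ B₂ N₁ N₂ A T v) : gY A T 0 = r.Y * qgY0 r := by
  simp only [gY, j.Hv_eq, j.et0, inner_lc j.gr, bl, qgY0]
  ring

lemma Jt.gZ0 (j : Jt r H B₁ B₂ N₁ N₂ A T v) : gZ A T 0 = r.Y ^ 2 * qgZ0 r := by
  simp only [gZ, Fin.sum_univ_two, j.z00, j.z01, j.z10, j.z11, j.gz000, j.gz010, j.gz100,
    j.gz110, qgz000, qgz010, qgz110, qgZ0]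
  ring

/-- `gX/Y` -/
noncomputable def qgX1 (r : Rv) : ℝ :=
    (1/2)*r.v2 + 2*r.w12 + (-2)*r.w21 + (-3/2)*r.h1*r.v2 + (-2)*r.h1*r.p2 + (-3/2)*r.h2*r.v1
    + 2*r.h2*r.p1 + 2*r.b1*r.v2 + 2*r.b2*r.v2 + 2*r.h1^2*r.v2 + (-2)*r.h1*r.b1*r.v2
    + (-6)*r.h1*r.b2*r.v2 + 4*r.h1*r.b3*r.v1 + 2*r.h2^2*r.v2 + (-6)*r.h2*r.b1*r.v1
    + (-2)*r.h2*r.b2*r.v1 + 4*r.h2*r.b3*r.v2 + (-2)*r.h1^3*r.v2 + (-2)*r.h1^2*r.h2*r.v1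
    + (-2)*r.h1*r.h2^2*r.v2 + (-2)*r.h2^3*r.v1

/-- `gY/Y` -/
noncomputable def qgY1 (r : Rv) : ℝ :=
    r.v2 + (-2)*r.h1*r.v2 + (-2)*r.h2*r.v1

/-- `gZ/Y²` -/
noncomputable def qgZ1 (r : Rv) : ℝ :=
    r.v2 + (-5/2)*r.h1*r.v2 + (-2)*r.h1*r.p2 + (-5/2)*r.h2*r.v1 + 2*r.h2*r.p1 + 4*r.h1^2*r.v2
    + (-2)*r.h1*r.b1*r.v2 + (-2)*r.h1*r.b2*r.v2 + 4*r.h2^2*r.v2 + (-2)*r.h2*r.b1*r.v1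
    + (-2)*r.h2*r.b2*r.v1 + (-6)*r.h1^3*r.v2 + (-6)*r.h1^2*r.h2*r.v1 + (-6)*r.h1*r.h2^2*r.v2
    + (-6)*r.h2^3*r.v1

lemma Jt.gX1 (j : Jt r H B₁ B₂ N₁ N₂ A T v) : gX A T 1 = r.Y * qgX1 r := by
  simp only [gX, Fin.sum_univ_two, j.t001, j.t011, j.s101, j.t111, j.a00, j.a01, j.a10, j.a11, inner_lc j.gr, bl,
    ka1, ka2, la1, la2, qgX1]
  ring

lemma Jt.gY1 (j : Jt r H B₁ B₂ N₁ N₂ A T v) : gY A T 1 = r.Y * qgY1 r := by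
  simp only [gY, j.Hv_eq, j.et1, inner_lc j.gr, bl, qgY1]
  ring

lemma Jt.gZ1 (j : Jt r H B₁ B₂ N₁ N₂ A T v) : gZ A T 1 = r.Y ^ 2 * qgZ1 r := by
  simp only [gZ, Fin.sum_univ_two, j.z00, j.z01, j.z10, j.z11, j.gz001, j.gz011, j.gz101,
    j.gz111, qgz001, qgz011, qgz111, qgZ1]
  ring

/-- `Sq/Y²` -/
noncomputable def qSq (r : Rv) : ℝ :=
    (1/4) + 2*r.h1^2 + 2*r.h2^2 + 4*r.b1^2 + 16*r.b1*r.b2 + 4*r.b2^2 + (-8)*r.b3^2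
    + 8*r.h1^2*r.b1 + 16*r.h1^2*r.b2 + (-16)*r.h1*r.h2*r.b3 + 16*r.h2^2*r.b1 + 8*r.h2^2*r.b2
    + 4*r.h1^4 + 8*r.h1^2*r.h2^2 + 4*r.h2^4

/-- `tq/Y` -/
noncomputable def qtq (r : Rv) : ℝ :=
    r.n11 + r.n22 + (3/16)*r.v1^2 + r.v1*r.w11 + r.v1*r.w22 + (3/16)*r.v2^2 + r.v2*r.w12
    + (-1)*r.v2*r.w21 + r.p1^2 + r.p2^2 + (3/4)*r.h1*r.v1^2 + r.h1*r.v1*r.p1
    + 4*r.h1*r.v1*r.w11 + 4*r.h1*r.v1*r.w22 + (-3/4)*r.h1*r.v2^2 + (-1)*r.h1*r.v2*r.p2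
    + (-4)*r.h1*r.v2*r.w12 + 4*r.h1*r.v2*r.w21 + (-3/2)*r.h2*r.v1*r.v2 + r.h2*r.v1*r.p2
    + (-4)*r.h2*r.v1*r.w12 + 4*r.h2*r.v1*r.w21 + r.h2*r.v2*r.p1 + (-4)*r.h2*r.v2*r.w11
    + (-4)*r.h2*r.v2*r.w22 + r.b1*r.v1^2 + (-2)*r.b1*r.v1*r.p1 + r.b1*r.v2^2
    + (-2)*r.b1*r.v2*r.p2 + r.b2*r.v1^2 + 2*r.b2*r.v1*r.p1 + r.b2*r.v2^2 + 2*r.b2*r.v2*r.p2
    + (-4)*r.b3*r.v1*r.p2 + 4*r.b3*r.v2*r.p1 + r.h1^2*r.v1^2 + 2*r.h1^2*r.v1*r.p1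
    + r.h1^2*r.v2^2 + 2*r.h1^2*r.v2*r.p2 + 4*r.h1*r.h2*r.v1*r.p2 + (-4)*r.h1*r.h2*r.v2*r.p1
    + r.h1*r.b1*r.v1^2 + (-1)*r.h1*r.b1*r.v2^2 + 3*r.h1*r.b2*r.v1^2 + (-3)*r.h1*r.b2*r.v2^2
    + 4*r.h1*r.b3*r.v1*r.v2 + r.h2^2*r.v1^2 + (-2)*r.h2^2*r.v1*r.p1 + r.h2^2*r.v2^2
    + (-2)*r.h2^2*r.v2*r.p2 + (-6)*r.h2*r.b1*r.v1*r.v2 + (-2)*r.h2*r.b2*r.v1*r.v2
    + (-2)*r.h2*r.b3*r.v1^2 + 2*r.h2*r.b3*r.v2^2 + r.b1^2*r.v1^2 + r.b1^2*r.v2^2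
    + (-2)*r.b1*r.b2*r.v1^2 + (-2)*r.b1*r.b2*r.v2^2 + r.b2^2*r.v1^2 + r.b2^2*r.v2^2
    + 4*r.b3^2*r.v1^2 + 4*r.b3^2*r.v2^2 + r.h1^3*r.v1^2 + (-1)*r.h1^3*r.v2^2
    + (-2)*r.h1^2*r.h2*r.v1*r.v2 + 2*r.h1^2*r.b1*r.v1^2 + 2*r.h1^2*r.b1*r.v2^2
    + 6*r.h1^2*r.b2*r.v1^2 + 6*r.h1^2*r.b2*r.v2^2 + r.h1*r.h2^2*r.v1^2
    + (-1)*r.h1*r.h2^2*r.v2^2 + (-8)*r.h1*r.h2*r.b3*r.v1^2 + (-8)*r.h1*r.h2*r.b3*r.v2^2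
    + (-2)*r.h2^3*r.v1*r.v2 + 6*r.h2^2*r.b1*r.v1^2 + 6*r.h2^2*r.b1*r.v2^2
    + 2*r.h2^2*r.b2*r.v1^2 + 2*r.h2^2*r.b2*r.v2^2 + r.h1^4*r.v1^2 + r.h1^4*r.v2^2
    + 2*r.h1^2*r.h2^2*r.v1^2 + 2*r.h1^2*r.h2^2*r.v2^2 + r.h2^4*r.v1^2 + r.h2^4*r.v2^2

/-- `eq2/Y` -/
noncomputable def qeq (r : Rv) : ℝ :=
    (1/4)*r.v1^2 + (1/4)*r.v2^2 + r.h1*r.v1^2 + (-1)*r.h1*r.v2^2 + (-2)*r.h2*r.v1*r.v2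
    + r.b1*r.v1^2 + r.b1*r.v2^2 + r.b2*r.v1^2 + r.b2*r.v2^2 + r.h1^2*r.v1^2 + r.h1^2*r.v2^2
    + r.h2^2*r.v1^2 + r.h2^2*r.v2^2

/-- `|U|²/Y³` -/
noncomputable def qUU (r : Rv) : ℝ :=
    (1/4) + 2*r.h1^2 + 2*r.h2^2 + 4*r.h1^2*r.b1 + 8*r.h1*r.h2*r.b3 + 4*r.h2^2*r.b2 + 4*r.h1^4
    + 8*r.h1^2*r.h2^2 + 4*r.h2^4

/-- `Σ z⟨T,∇H⟩/Y²` -/
noncomputable def qzT (r : Rv) : ℝ :=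
    (1/8)*r.v1^2 + (1/8)*r.v2^2 + (5/8)*r.h1*r.v1^2 + (1/2)*r.h1*r.v1*r.p1 + r.h1*r.v1*r.w11
    + r.h1*r.v1*r.w22 + (-5/8)*r.h1*r.v2^2 + (-1/2)*r.h1*r.v2*r.p2 + (-1)*r.h1*r.v2*r.w12
    + r.h1*r.v2*r.w21 + (-5/4)*r.h2*r.v1*r.v2 + (1/2)*r.h2*r.v1*r.p2 + (-1)*r.h2*r.v1*r.w12
    + r.h2*r.v1*r.w21 + (1/2)*r.h2*r.v2*r.p1 + (-1)*r.h2*r.v2*r.w11 + (-1)*r.h2*r.v2*r.w22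
    + (1/2)*r.b1*r.v1^2 + (1/2)*r.b1*r.v2^2 + (1/2)*r.b2*r.v1^2 + (1/2)*r.b2*r.v2^2
    + (5/4)*r.h1^2*r.v1^2 + r.h1^2*r.v1*r.p1 + (5/4)*r.h1^2*r.v2^2 + r.h1^2*r.v2*r.p2
    + 2*r.h1*r.h2*r.v1*r.p2 + (-2)*r.h1*r.h2*r.v2*r.p1 + (1/2)*r.h1*r.b1*r.v1^2
    + (-1/2)*r.h1*r.b1*r.v2^2 + (1/2)*r.h1*r.b2*r.v1^2 + (-1/2)*r.h1*r.b2*r.v2^2
    + (5/4)*r.h2^2*r.v1^2 + (-1)*r.h2^2*r.v1*r.p1 + (5/4)*r.h2^2*r.v2^2 + (-1)*r.h2^2*r.v2*r.p2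
    + (-1)*r.h2*r.b1*r.v1*r.v2 + (-1)*r.h2*r.b2*r.v1*r.v2 + (3/2)*r.h1^3*r.v1^2
    + (-3/2)*r.h1^3*r.v2^2 + (-3)*r.h1^2*r.h2*r.v1*r.v2 + r.h1^2*r.b1*r.v1^2
    + r.h1^2*r.b1*r.v2^2 + 3*r.h1^2*r.b2*r.v1^2 + 3*r.h1^2*r.b2*r.v2^2
    + (3/2)*r.h1*r.h2^2*r.v1^2 + (-3/2)*r.h1*r.h2^2*r.v2^2 + (-4)*r.h1*r.h2*r.b3*r.v1^2
    + (-4)*r.h1*r.h2*r.b3*r.v2^2 + (-3)*r.h2^3*r.v1*r.v2 + 3*r.h2^2*r.b1*r.v1^2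
    + 3*r.h2^2*r.b1*r.v2^2 + r.h2^2*r.b2*r.v1^2 + r.h2^2*r.b2*r.v2^2 + r.h1^4*r.v1^2
    + r.h1^4*r.v2^2 + 2*r.h1^2*r.h2^2*r.v1^2 + 2*r.h1^2*r.h2^2*r.v2^2 + r.h2^4*r.v1^2
    + r.h2^4*r.v2^2

/-- `Σ gz²/Y²` -/
noncomputable def qgg (r : Rv) : ℝ :=
    (9/16)*r.v1^2 + (9/16)*r.v2^2 + r.p1^2 + r.p2^2 + (5/2)*r.h1*r.v1^2 + 2*r.h1*r.v1*r.p1
    + (-5/2)*r.h1*r.v2^2 + (-2)*r.h1*r.v2*r.p2 + (-5)*r.h2*r.v1*r.v2 + 2*r.h2*r.v1*r.p2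
    + 2*r.h2*r.v2*r.p1 + (1/2)*r.b1*r.v1^2 + (1/2)*r.b1*r.v2^2 + (1/2)*r.b2*r.v1^2
    + (1/2)*r.b2*r.v2^2 + (9/2)*r.h1^2*r.v1^2 + 4*r.h1^2*r.v1*r.p1 + (9/2)*r.h1^2*r.v2^2
    + 4*r.h1^2*r.v2*r.p2 + 8*r.h1*r.h2*r.v1*r.p2 + (-8)*r.h1*r.h2*r.v2*r.p1
    + 2*r.h1*r.b1*r.v1^2 + (-2)*r.h1*r.b1*r.v2^2 + 2*r.h1*r.b2*r.v1^2 + (-2)*r.h1*r.b2*r.v2^2
    + (9/2)*r.h2^2*r.v1^2 + (-4)*r.h2^2*r.v1*r.p1 + (9/2)*r.h2^2*r.v2^2 + (-4)*r.h2^2*r.v2*r.p2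
    + (-4)*r.h2*r.b1*r.v1*r.v2 + (-4)*r.h2*r.b2*r.v1*r.v2 + r.b1^2*r.v1^2 + r.b1^2*r.v2^2
    + 2*r.b1*r.b2*r.v1^2 + 2*r.b1*r.b2*r.v2^2 + r.b2^2*r.v1^2 + r.b2^2*r.v2^2 + 6*r.h1^3*r.v1^2
    + (-6)*r.h1^3*r.v2^2 + (-12)*r.h1^2*r.h2*r.v1*r.v2 + 2*r.h1^2*r.b1*r.v1^2
    + 2*r.h1^2*r.b1*r.v2^2 + 2*r.h1^2*r.b2*r.v1^2 + 2*r.h1^2*r.b2*r.v2^2 + 6*r.h1*r.h2^2*r.v1^2
    + (-6)*r.h1*r.h2^2*r.v2^2 + (-12)*r.h2^3*r.v1*r.v2 + 2*r.h2^2*r.b1*r.v1^2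
    + 2*r.h2^2*r.b1*r.v2^2 + 2*r.h2^2*r.b2*r.v1^2 + 2*r.h2^2*r.b2*r.v2^2 + 5*r.h1^4*r.v1^2
    + 5*r.h1^4*r.v2^2 + 10*r.h1^2*r.h2^2*r.v1^2 + 10*r.h1^2*r.h2^2*r.v2^2 + 5*r.h2^4*r.v1^2
    + 5*r.h2^4*r.v2^2

/-- `/Y³` -/
noncomputable def qAz (r : Rv) : ℝ :=
    (1/8) + (1/2)*r.b1 + (1/2)*r.b2 + 3*r.h1^2 + 3*r.h2^2 + 2*r.h1^2*r.b1 + 2*r.h1^2*r.b2
    + 2*r.h2^2*r.b1 + 2*r.h2^2*r.b2 + 2*r.h1^4 + 4*r.h1^2*r.h2^2 + 2*r.h2^4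

/-- `/Y³` -/
noncomputable def qzA (r : Rv) : ℝ :=
    (1/8) + (1/2)*r.b1 + (1/2)*r.b2 + 3*r.h1^2 + 3*r.h2^2 + 2*r.h1^2*r.b1 + (-2)*r.h1^2*r.b2
    + 8*r.h1*r.h2*r.b3 + (-2)*r.h2^2*r.b1 + 2*r.h2^2*r.b2 + 2*r.h1^4 + 4*r.h1^2*r.h2^2
    + 2*r.h2^4

/-- `Σ⟨∇U,∇H⟩/Y²` -/
noncomputable def qdU (r : Rv) : ℝ :=
    (3/8)*r.v1^2 + (3/8)*r.v2^2 + (7/4)*r.h1*r.v1^2 + r.h1*r.v1*r.p1 + r.h1*r.v1*r.w11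
    + r.h1*r.v1*r.w22 + (-7/4)*r.h1*r.v2^2 + (-1)*r.h1*r.v2*r.p2 + (-1)*r.h1*r.v2*r.w12
    + r.h1*r.v2*r.w21 + (-7/2)*r.h2*r.v1*r.v2 + r.h2*r.v1*r.p2 + (-1)*r.h2*r.v1*r.w12
    + r.h2*r.v1*r.w21 + r.h2*r.v2*r.p1 + (-1)*r.h2*r.v2*r.w11 + (-1)*r.h2*r.v2*r.w22
    + (3/4)*r.b1*r.v1^2 + r.b1*r.v1*r.p1 + (3/4)*r.b1*r.v2^2 + r.b1*r.v2*r.p2
    + (3/4)*r.b2*r.v1^2 + (-1)*r.b2*r.v1*r.p1 + (3/4)*r.b2*r.v2^2 + (-1)*r.b2*r.v2*r.p2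
    + 2*r.b3*r.v1*r.p2 + (-2)*r.b3*r.v2*r.p1 + (7/2)*r.h1^2*r.v1^2 + 2*r.h1^2*r.v1*r.p1
    + (7/2)*r.h1^2*r.v2^2 + 2*r.h1^2*r.v2*r.p2 + 4*r.h1*r.h2*r.v1*r.p2
    + (-4)*r.h1*r.h2*r.v2*r.p1 + 3*r.h1*r.b1*r.v1^2 + (-3)*r.h1*r.b1*r.v2^2 + r.h1*r.b2*r.v1^2
    + (-1)*r.h1*r.b2*r.v2^2 + (-4)*r.h1*r.b3*r.v1*r.v2 + (7/2)*r.h2^2*r.v1^2
    + (-2)*r.h2^2*r.v1*r.p1 + (7/2)*r.h2^2*r.v2^2 + (-2)*r.h2^2*r.v2*r.p2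
    + (-2)*r.h2*r.b1*r.v1*r.v2 + (-6)*r.h2*r.b2*r.v1*r.v2 + 2*r.h2*r.b3*r.v1^2
    + (-2)*r.h2*r.b3*r.v2^2 + r.b1^2*r.v1^2 + r.b1^2*r.v2^2 + 2*r.b1*r.b2*r.v1^2
    + 2*r.b1*r.b2*r.v2^2 + r.b2^2*r.v1^2 + r.b2^2*r.v2^2 + 5*r.h1^3*r.v1^2 + (-5)*r.h1^3*r.v2^2
    + (-10)*r.h1^2*r.h2*r.v1*r.v2 + 5*r.h1^2*r.b1*r.v1^2 + 5*r.h1^2*r.b1*r.v2^2
    + 3*r.h1^2*r.b2*r.v1^2 + 3*r.h1^2*r.b2*r.v2^2 + 5*r.h1*r.h2^2*r.v1^2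
    + (-5)*r.h1*r.h2^2*r.v2^2 + 4*r.h1*r.h2*r.b3*r.v1^2 + 4*r.h1*r.h2*r.b3*r.v2^2
    + (-10)*r.h2^3*r.v1*r.v2 + 3*r.h2^2*r.b1*r.v1^2 + 3*r.h2^2*r.b1*r.v2^2
    + 5*r.h2^2*r.b2*r.v1^2 + 5*r.h2^2*r.b2*r.v2^2 + 4*r.h1^4*r.v1^2 + 4*r.h1^4*r.v2^2
    + 8*r.h1^2*r.h2^2*r.v1^2 + 8*r.h1^2*r.h2^2*r.v2^2 + 4*r.h2^4*r.v1^2 + 4*r.h2^4*r.v2^2

/-- `⟨U,∇_kH⟩/Y²` -/
noncomputable def qUt0 (r : Rv) : ℝ :=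
    (1/4)*r.v1 + (1/2)*r.h1*r.v1 + (-1/2)*r.h2*r.v2 + r.h1^2*r.v1 + 2*r.h1*r.b1*r.v1
    + (-2)*r.h1*r.b3*r.v2 + r.h2^2*r.v1 + (-2)*r.h2*r.b2*r.v2 + 2*r.h2*r.b3*r.v1
    + 2*r.h1^3*r.v1 + (-2)*r.h1^2*r.h2*r.v2 + 2*r.h1*r.h2^2*r.v1 + (-2)*r.h2^3*r.v2

/-- `⟨U,∇_kH⟩/Y²` -/
noncomputable def qUt1 (r : Rv) : ℝ :=
    (1/4)*r.v2 + (-1/2)*r.h1*r.v2 + (-1/2)*r.h2*r.v1 + r.h1^2*r.v2 + (-2)*r.h1*r.b1*r.v2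
    + (-2)*r.h1*r.b3*r.v1 + r.h2^2*r.v2 + (-2)*r.h2*r.b2*r.v1 + (-2)*r.h2*r.b3*r.v2
    + (-2)*r.h1^3*r.v2 + (-2)*r.h1^2*r.h2*r.v1 + (-2)*r.h1*r.h2^2*r.v2 + (-2)*r.h2^3*r.v1

lemma Jt.Sq_eq (j : Jt r H B₁ B₂ N₁ N₂ A T v) : Sq A = r.Y ^ 2 * qSq r := by
  simp only [Sq, Fin.sum_univ_two, j.a00, j.a01, j.a10, j.a11, inner_lc j.gr, bl, qSq]
  ring

lemma Jt.tq_eq (j : Jt r H B₁ B₂ N₁ N₂ A T v) : tq T = r.Y * qtq r := by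
  simp only [tq, Fin.sum_univ_two, ← real_inner_self_eq_norm_sq, j.t000, j.s010, j.t001, j.s100,
    j.s110, j.t011, j.s101, j.t111, inner_lc j.gr, bl, ka1, ka2, la1, la2, qtq]
  ring

lemma Jt.eq_eq (j : Jt r H B₁ B₂ N₁ N₂ A T v) : eq2 T = r.Y * qeq r := by
  simp only [eq2, Fin.sum_univ_two, ← real_inner_self_eq_norm_sq, j.et0, j.et1,
    inner_lc j.gr, bl, qeq]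
  ring

lemma Jt.Uv_eq (j : Jt r H B₁ B₂ N₁ N₂ A T v) : Uv A = lc H B₁ B₂ N₁ N₂
    (r.Y * (1 / 2 + 2 * (r.h1 ^ 2 + r.h2 ^ 2))) (r.Y * (2 * r.h1)) (r.Y * (2 * r.h2)) 0 0 := by
  simp only [Uv, Fin.sum_univ_two, j.z00, j.z01, j.z10, j.z11, j.a00, j.a01, j.a10, j.a11,
    lc_smul, lc_add]
  congr 1 <;> ring

lemma Jt.UU_eq (j : Jt r H B₁ B₂ N₁ N₂ A T v) : (inner ℝ (Uv A) (Uv A) : ℝ)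
    = r.Y ^ 3 * qUU r := by
  rw [j.Uv_eq, inner_lc j.gr]
  simp only [bl, qUU]
  ring

lemma Jt.zT_eq (j : Jt r H B₁ B₂ N₁ N₂ A T v) :
    (∑ i, ∑ k, ∑ l, zz A i k * inner ℝ (T i k l) (et T l)) = r.Y ^ 2 * qzT r := by
  simp only [Fin.sum_univ_two, j.z00, j.z01, j.z10, j.z11, j.t000, j.s010, j.t001, j.s100,
    j.s110, j.t011, j.s101, j.t111, j.et0, j.et1, inner_lc j.gr, bl, ka1, ka2, la1, la2, qzT]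
  ring

lemma Jt.gg_eq (j : Jt r H B₁ B₂ N₁ N₂ A T v) :
    (∑ i, ∑ k, ∑ l, gz A T i k l ^ 2) = r.Y ^ 2 * qgg r := by
  simp only [Fin.sum_univ_two, j.gz000, j.gz001, j.gz010, j.gz011, j.gz100, j.gz101, j.gz110,
    j.gz111, qgz000, qgz001, qgz010, qgz011, qgz110, qgz111, qgg]
  ring

lemma Jt.Az_eq (j : Jt r H B₁ B₂ N₁ N₂ A T v) :
    (∑ i, ∑ k, ∑ l, ∑ a, inner ℝ (A i a) (A a l) * (zz A i k * zz A l k))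
      = r.Y ^ 3 * qAz r := by
  simp only [Fin.sum_univ_two, j.z00, j.z01, j.z10, j.z11, j.a00, j.a01, j.a10, j.a11,
    inner_lc j.gr, bl, qAz]
  ring

lemma Jt.zA_eq (j : Jt r H B₁ B₂ N₁ N₂ A T v) :
    (∑ i, ∑ k, ∑ a, ∑ b, zz A i k * zz A a b * inner ℝ (A a i) (A b k))
      = r.Y ^ 3 * qzA r := by
  simp only [Fin.sum_univ_two, j.z00, j.z01, j.z10, j.z11, j.a00, j.a01, j.a10, j.a11,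
    inner_lc j.gr, bl, qzA]
  ring

lemma Jt.Ut0 (j : Jt r H B₁ B₂ N₁ N₂ A T v) : (inner ℝ (Uv A) (et T 0) : ℝ)
    = r.Y ^ 2 * qUt0 r := by
  rw [j.Uv_eq, j.et0, inner_lc j.gr]; simp only [bl, qUt0]; ring

lemma Jt.Ut1 (j : Jt r H B₁ B₂ N₁ N₂ A T v) : (inner ℝ (Uv A) (et T 1) : ℝ)
    = r.Y ^ 2 * qUt1 r := by
  rw [j.Uv_eq, j.et1, inner_lc j.gr]; simp only [bl, qUt1]; ring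

lemma Jt.dU_eq (j : Jt r H B₁ B₂ N₁ N₂ A T v) :
    (inner ℝ (dU A T 0) (et T 0) : ℝ) + inner ℝ (dU A T 1) (et T 1) = r.Y ^ 2 * qdU r := by
  simp only [dU, Fin.sum_univ_two, j.z00, j.z01, j.z10, j.z11, j.gz000, j.gz001, j.gz010,
    j.gz011, j.gz100, j.gz101, j.gz110, j.gz111, j.t000, j.s010, j.t001, j.s100,
    j.s110, j.t011, j.s101, j.t111, j.a00, j.a01, j.a10, j.a11, j.et0, j.et1, lc_smul, lc_add,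
    inner_lc j.gr, bl, ka1, ka2, la1, la2, qgz000, qgz001, qgz010, qgz011, qgz110, qgz111, qdU]
  ring

end

end Helper23.CA
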