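import Mathlib
import Pool.Agent.Helper23.CA.Sc

/-!
Project CL (MP_b2fa09_gt), module AS, scalar part: the determinant and `z₀` on the whole region.
-/

set_option autoImplicit false

namespace Helper23.CA

lemma quad_pos (b s D0 D1 D2 : ℝ) (hb : 0 < b) (hs : |s| ≤ b)
    (h0 : 0 ≤ D0) (h1 : 0 ≤ D0 + D1 * b + D2 * b ^ 2) (h2 : 0 ≤ D0 - D1 * b + D2 * b ^ 2)
    (h3 : 0 ≤ 2 * D0 + D1 * b) (h4 : 0 ≤ 4 * D0 - D1 * b)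
    (h5 : 0 ≤ 4 * D0 - 2 * (D1 * b) + D2 * b ^ 2)
    (h6 : 0 ≤ 4 * D0 - 3 * (D1 * b) + 2 * (D2 * b ^ 2)) :
    0 ≤ D0 + D1 * s + D2 * s ^ 2 := by
  obtain ⟨hl, hr⟩ := abs_le.1 hs
  have hb2 : 0 < b ^ 2 := by positivity
  suffices h : 0 ≤ b ^ 2 * (D0 + D1 * s + D2 * s ^ 2) from by
    by_contra hc
    push Not at hc
    nlinarith
  rcases le_total 0 s with h | h
  · have e : b ^ 2 * (D0 + D1 * s + D2 * s ^ 2) = s ^ 2 * (D0 + D1 * b + D2 * b ^ 2)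
        + (b - s) * ((b - s) * D0 + s * (2 * D0 + D1 * b)) := by ring
    rw [e]
    have : 0 ≤ b - s := by linarith
    positivity
  · obtain ⟨t, ht⟩ : ∃ t, t = -s := ⟨_, rfl⟩
    have ht0 : 0 ≤ t := by linarith
    have hs' : s = -t := by linarith
    subst hs'
    rcases le_total (2 * t) b with h' | h'
    · have e : b ^ 2 * (D0 + D1 * (-t) + D2 * (-t) ^ 2) = (b - 2 * t) ^ 2 * D0
          + t * (b - 2 * t) * (4 * D0 - D1 * b)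
          + t ^ 2 * (4 * D0 - 2 * (D1 * b) + D2 * b ^ 2) := by ring
      rw [e]
      have : 0 ≤ b - 2 * t := by linarith
      positivity
    · have e : b ^ 2 * (D0 + D1 * (-t) + D2 * (-t) ^ 2)
          = (b - t) ^ 2 * (4 * D0 - 2 * (D1 * b) + D2 * b ^ 2)
          + (2 * t - b) * (b - t) * (4 * D0 - 3 * (D1 * b) + 2 * (D2 * b ^ 2))
          + (2 * t - b) ^ 2 * (D0 - D1 * b + D2 * b ^ 2) := by ring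
      rw [e]
      have h7 : 0 ≤ b - t := by linarith
      have h8 : 0 ≤ 2 * t - b := by linarith
      positivity

/-- `Z = m s` -/
lemma exists_s (b m Z S : ℝ) (hb : 0 ≤ b) (hm : 0 ≤ m) (hS : S ≤ b ^ 2)
    (hZ : Z ^ 2 ≤ m ^ 2 * S) (hS0 : 0 ≤ S) : ∃ s, Z = m * s ∧ s ^ 2 ≤ S ∧ |s| ≤ b := by
  rcases eq_or_lt_of_le hm with h | h
  · refine ⟨0, ?_, ?_, ?_⟩
    · subst h
      have : Z ^ 2 ≤ 0 := by simpa using hZ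
      have : Z = 0 := by nlinarith [sq_nonneg Z]
      simp [this]
    · simpa using hS0
    · simpa using hb
  · have h2 : (Z / m) ^ 2 ≤ S := by
      rw [div_pow, div_le_iff₀ (by positivity)]
      linarith
    refine ⟨Z / m, by field_simp, h2, ?_⟩
    exact abs_le_of_sq_le_sq (h2.trans hS) hb

theorem dK_nonneg (b m Z S : ℝ) (hb : 0 ≤ b) (hm : 0 ≤ m) (h : 6 * (b + m) ≤ 1)
    (hS0 : 0 ≤ S) (hS : S ≤ b ^ 2) (hZ : Z ^ 2 ≤ m ^ 2 * S) : 0 ≤ dK b m Z S := by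
  obtain ⟨s, rfl, hs, hsb⟩ := exists_s b m Z S hb hm hS hZ hS0
  rw [dK_eq]
  have p0 := c_q0 b m hb hm h
  have pp := c_pp b m hb hm h
  have pm := c_pm b m hb hm h
  have q1 := c_q1 b m hb hm h
  have q2 := c_q2 b m hb hm h
  have q3 := c_q3 b m hb hm h
  have q4 := c_q4 b m hb hm h
  set D0 := E0 b m
  set D2 := E2 b m
  obtain ⟨D1, hD1⟩ : ∃ D1, D1 = E1 b m * m := ⟨_, rfl⟩
  rw [← hD1] at pp pm q1 q2 q3 q4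
  have e : D0 + E1 b m * (m * s) + D2 * S = D0 + D1 * s + D2 * S := by rw [hD1]; ring
  rw [e]
  obtain ⟨hl, hr⟩ := abs_le.1 hsb
  rcases eq_or_lt_of_le hb with h0 | h0
  · subst h0
    have hs0 : s = 0 := by linarith
    have hS00 : S = 0 := by nlinarith
    rw [hs0, hS00]; simpa using p0
  rcases le_total 0 D2 with h2 | h2
  · have := quad_pos b s D0 D1 D2 h0 hsb p0 pp pm q1 q2 q3 q4
    nlinarith
  · have h3 : D2 * b ^ 2 ≤ D2 * S := by nlinarith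
    have h4 : 0 ≤ 2 * b * (D0 + D1 * s + D2 * b ^ 2) := by
      have e : 2 * b * (D0 + D1 * s + D2 * b ^ 2) = (b + s) * (D0 + D1 * b + D2 * b ^ 2)
          + (b - s) * (D0 - D1 * b + D2 * b ^ 2) := by ring
      rw [e]
      have h7 : 0 ≤ b - s := by linarith
      have h8 : 0 ≤ b + s := by linarith
      positivity
    have h5 : 0 ≤ D0 + D1 * s + D2 * b ^ 2 := by
      by_contra hc
      push Not at hc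
      nlinarith
    linarith

theorem kz0_lower (b m Z S : ℝ) (hb : 0 ≤ b) (hm : 0 ≤ m) (h : 6 * (b + m) ≤ 1)
    (hS0 : 0 ≤ S) (hS : S ≤ b ^ 2) (hZ : Z ^ 2 ≤ m ^ 2 * S) :
    1 / 10000 * (b * (1 - 6 * b - 6 * m) + m) ≤ kz0 b m Z S := by
  obtain ⟨s, rfl, hs, hsb⟩ := exists_s b m Z S hb hm hS hZ hS0
  rw [kz0_eq]
  have f0 := c_z0 b m hb hm h
  have f2 := c_z2 b m hb hm h
  have f3 := c_z3 b m hb hm h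
  have hK : 1 ≤ kK m := by unfold kK; linarith
  have hF1 : 0 ≤ F1 b m := by
    unfold F1; nlinarith
  obtain ⟨D1, hD1⟩ : ∃ D1, D1 = F1 b m * m := ⟨_, rfl⟩
  have hD10 : 0 ≤ D1 := by rw [hD1]; positivity
  rw [← hD1] at f2 f3
  set K := kK m
  obtain ⟨hl, hr⟩ := abs_le.1 hsb
  have key : 0 ≤ F0 b m + D1 * s + K * s ^ 2 := by
    rcases le_total 0 s with h1 | h1
    · positivity
    rcases le_total (2 * K * b) D1 with h2 | h2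
    · have e : F0 b m + D1 * s + K * s ^ 2 = (F0 b m - D1 * b + K * b ^ 2)
          + (b + s) * (D1 - K * (b - s)) := by ring
      rw [e]
      have h3 : 0 ≤ b + s := by linarith
      have h4 : 0 ≤ D1 - K * (b - s) := by nlinarith
      positivity
    · have h5 : 0 ≤ m * (1 - 6 * b) ^ 2 := by positivity
      have h6 : 0 ≤ 4 * K * F0 b m - D1 ^ 2 := by nlinarith
      have h7 : 0 ≤ 4 * K * (F0 b m + D1 * s + K * s ^ 2) := by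
        have e : 4 * K * (F0 b m + D1 * s + K * s ^ 2) = (4 * K * F0 b m - D1 ^ 2)
          + (D1 + 2 * K * s) ^ 2 := by ring
        rw [e]; positivity
      by_contra hc
      push Not at hc
      nlinarith
  have e : F1 b m * (m * s) = D1 * s := by rw [hD1]; ring
  rw [e]
  nlinarith

/-- `Re(p̄ x σ)` etc. are written out in real coordinates. The reduced quadratic form. -/
noncomputable def Qt (h₁ h₂ s₁ s₂ b x₁ x₂ p₁ p₂ w₁ w₂ nn : ℝ) : ℝ :=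
  2 * kK (h₁ ^ 2 + h₂ ^ 2) * nn
    + 28 / 5 * (w₁ * (h₁ * p₁ + h₂ * p₂) - w₂ * (h₂ * p₁ - h₁ * p₂))
    + kz b (h₁ ^ 2 + h₂ ^ 2) * (w₁ * (h₁ * x₁ - h₂ * x₂) + w₂ * (h₂ * x₁ + h₁ * x₂))
    + 2 * kL b * (p₁ ^ 2 + p₂ ^ 2)
    + kA (h₁ ^ 2 + h₂ ^ 2) * ((p₁ * x₁ + p₂ * x₂) * s₁ - (p₁ * x₂ - p₂ * x₁) * s₂)
    + kB b * ((p₁ * x₁ + p₂ * x₂) * (h₁ ^ 2 - h₂ ^ 2) - (p₁ * x₂ - p₂ * x₁) * (2 * h₁ * h₂))
    + kg b (h₁ ^ 2 + h₂ ^ 2) ((h₁ ^ 2 - h₂ ^ 2) * s₁ + 2 * h₁ * h₂ * s₂) (s₁ ^ 2 + s₂ ^ 2)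
      * (x₁ ^ 2 + x₂ ^ 2)

/-- the quadratic form is coercive -/
theorem Qt_lower (h₁ h₂ s₁ s₂ b x₁ x₂ p₁ p₂ w₁ w₂ nn : ℝ) (hb : 0 ≤ b)
    (h : 6 * (b + (h₁ ^ 2 + h₂ ^ 2)) ≤ 1) (hS : s₁ ^ 2 + s₂ ^ 2 ≤ b ^ 2)
    (hW : w₁ ^ 2 + w₂ ^ 2 ≤ b * nn) (hn : 0 ≤ nn) :
    1 / 5000 * (2 * nn + (p₁ ^ 2 + p₂ ^ 2) + (x₁ ^ 2 + x₂ ^ 2))
      ≤ Qt h₁ h₂ s₁ s₂ b x₁ x₂ p₁ p₂ w₁ w₂ nn := by
  have hm : 0 ≤ h₁ ^ 2 + h₂ ^ 2 := by positivity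
  have hS0 : 0 ≤ s₁ ^ 2 + s₂ ^ 2 := by positivity
  have hZ : ((h₁ ^ 2 - h₂ ^ 2) * s₁ + 2 * h₁ * h₂ * s₂) ^ 2
      ≤ (h₁ ^ 2 + h₂ ^ 2) ^ 2 * (s₁ ^ 2 + s₂ ^ 2) := by
    nlinarith [sq_nonneg ((h₁ ^ 2 - h₂ ^ 2) * s₂ - 2 * h₁ * h₂ * s₁)]
  have hD := dK_nonneg b _ _ _ hb hm h hS0 hS hZ
  have ha := aK_pos b (h₁ ^ 2 + h₂ ^ 2) hb hm
  obtain ⟨m, hmd⟩ : ∃ m, m = h₁ ^ 2 + h₂ ^ 2 := ⟨_, rfl⟩
  obtain ⟨Z, hZd⟩ : ∃ Z, Z = (h₁ ^ 2 - h₂ ^ 2) * s₁ + 2 * h₁ * h₂ * s₂ := ⟨_, rfl⟩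
  obtain ⟨S, hSd⟩ : ∃ S, S = s₁ ^ 2 + s₂ ^ 2 := ⟨_, rfl⟩
  rw [← hmd, ← hZd, ← hSd] at hD
  rw [← hmd] at ha hm
  unfold Qt
  rw [← hmd, ← hZd, ← hSd]
  have hK : 4 / 5 ≤ kKp m := by unfold kKp kK; linarith
  -- step 1: eliminate `W`
  obtain ⟨z₁, hz₁⟩ : ∃ z, z = 28 / 5 * (h₁ * p₁ + h₂ * p₂) + kz b m * (h₁ * x₁ - h₂ * x₂) :=
    ⟨_, rfl⟩
  obtain ⟨z₂, hz₂⟩ : ∃ z, z = -(28 / 5 * (h₂ * p₁ - h₁ * p₂)) + kz b m * (h₂ * x₁ + h₁ * x₂) :=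
    ⟨_, rfl⟩
  have hWz : 0 ≤ 8 * kKp m * (2 * kKp m * nn + (w₁ * z₁ + w₂ * z₂)) + b * (z₁ ^ 2 + z₂ ^ 2) := by
    rcases eq_or_lt_of_le hb with h0 | h0
    · subst h0
      have e1 : w₁ = 0 := by nlinarith [sq_nonneg w₁, sq_nonneg w₂]
      have e2 : w₂ = 0 := by nlinarith [sq_nonneg w₁, sq_nonneg w₂]
      rw [e1, e2]
      have : 0 ≤ kKp m := by linarith
      have e : 8 * kKp m * (2 * kKp m * nn + (0 * z₁ + 0 * z₂)) + 0 * (z₁ ^ 2 + z₂ ^ 2)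
        = 16 * kKp m ^ 2 * nn := by ring
      rw [e]; positivity
    · have h1 : 0 ≤ b * (8 * kKp m * (2 * kKp m * nn + (w₁ * z₁ + w₂ * z₂))
          + b * (z₁ ^ 2 + z₂ ^ 2)) := by
        have h2 : 0 ≤ kKp m ^ 2 * (b * nn - (w₁ ^ 2 + w₂ ^ 2)) := by
          have : 0 ≤ b * nn - (w₁ ^ 2 + w₂ ^ 2) := by linarith
          positivity
        nlinarith [sq_nonneg (4 * kKp m * w₁ + b * z₁), sq_nonneg (4 * kKp m * w₂ + b * z₂)]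
      by_contra hc
      push Not at hc
      nlinarith
  -- step 2: the Hermitian form in `(p, x)`
  obtain ⟨c₁, hc₁⟩ : ∃ c, c = kA m * kKp m * s₁ + bK b m * (h₁ ^ 2 - h₂ ^ 2) := ⟨_, rfl⟩
  obtain ⟨c₂, hc₂⟩ : ∃ c, c = kA m * kKp m * s₂ + bK b m * (2 * h₁ * h₂) := ⟨_, rfl⟩
  have hc : c₁ ^ 2 + c₂ ^ 2 = kA m ^ 2 * kKp m ^ 2 * S + 2 * kA m * kKp m * bK b m * Z
      + bK b m ^ 2 * m ^ 2 := by
    rw [hc₁, hc₂, hSd, hZd, hmd]; ring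
  have hH : 0 ≤ aK b m * (p₁ ^ 2 + p₂ ^ 2)
      + ((p₁ * x₁ + p₂ * x₂) * c₁ - (p₁ * x₂ - p₂ * x₁) * c₂)
      + gK b m Z S * (x₁ ^ 2 + x₂ ^ 2) := by
    have h1 : 0 ≤ 4 * aK b m * (aK b m * (p₁ ^ 2 + p₂ ^ 2)
      + ((p₁ * x₁ + p₂ * x₂) * c₁ - (p₁ * x₂ - p₂ * x₁) * c₂)
      + gK b m Z S * (x₁ ^ 2 + x₂ ^ 2)) := by
      have e : 4 * aK b m * (aK b m * (p₁ ^ 2 + p₂ ^ 2)
        + ((p₁ * x₁ + p₂ * x₂) * c₁ - (p₁ * x₂ - p₂ * x₁) * c₂)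
        + gK b m Z S * (x₁ ^ 2 + x₂ ^ 2))
        = (2 * aK b m * p₁ + (x₁ * c₁ - x₂ * c₂)) ^ 2
          + (2 * aK b m * p₂ + (x₂ * c₁ + x₁ * c₂)) ^ 2
          + (4 * aK b m * gK b m Z S - (c₁ ^ 2 + c₂ ^ 2)) * (x₁ ^ 2 + x₂ ^ 2) := by ring
      rw [e, hc]
      have e2 : 4 * aK b m * gK b m Z S - (kA m ^ 2 * kKp m ^ 2 * S
        + 2 * kA m * kKp m * bK b m * Z + bK b m ^ 2 * m ^ 2) = dK b m Z S := by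
        unfold dK; ring
      rw [e2]
      positivity
    by_contra hcc
    push Not at hcc
    nlinarith
  -- step 3: combine
  have e3 : 8 * kKp m * (2 * kK m * nn
      + 28 / 5 * (w₁ * (h₁ * p₁ + h₂ * p₂) - w₂ * (h₂ * p₁ - h₁ * p₂))
      + kz b m * (w₁ * (h₁ * x₁ - h₂ * x₂) + w₂ * (h₂ * x₁ + h₁ * x₂))
      + 2 * kL b * (p₁ ^ 2 + p₂ ^ 2)
      + kA m * ((p₁ * x₁ + p₂ * x₂) * s₁ - (p₁ * x₂ - p₂ * x₁) * s₂)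
      + kB b * ((p₁ * x₁ + p₂ * x₂) * (h₁ ^ 2 - h₂ ^ 2) - (p₁ * x₂ - p₂ * x₁) * (2 * h₁ * h₂))
      + kg b m Z S * (x₁ ^ 2 + x₂ ^ 2)
      - 1 / 5000 * (2 * nn + (p₁ ^ 2 + p₂ ^ 2) + (x₁ ^ 2 + x₂ ^ 2)))
      = (8 * kKp m * (2 * kKp m * nn + (w₁ * z₁ + w₂ * z₂)) + b * (z₁ ^ 2 + z₂ ^ 2))
      + 8 * (aK b m * (p₁ ^ 2 + p₂ ^ 2)
      + ((p₁ * x₁ + p₂ * x₂) * c₁ - (p₁ * x₂ - p₂ * x₁) * c₂)
      + gK b m Z S * (x₁ ^ 2 + x₂ ^ 2)) := by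
    rw [hz₁, hz₂, hc₁, hc₂]
    simp only [aK, gK, bK, kKp]
    rw [hmd]
    ring
  have h9 : 0 ≤ 8 * kKp m * (2 * kK m * nn
      + 28 / 5 * (w₁ * (h₁ * p₁ + h₂ * p₂) - w₂ * (h₂ * p₁ - h₁ * p₂))
      + kz b m * (w₁ * (h₁ * x₁ - h₂ * x₂) + w₂ * (h₂ * x₁ + h₁ * x₂))
      + 2 * kL b * (p₁ ^ 2 + p₂ ^ 2)
      + kA m * ((p₁ * x₁ + p₂ * x₂) * s₁ - (p₁ * x₂ - p₂ * x₁) * s₂)
      + kB b * ((p₁ * x₁ + p₂ * x₂) * (h₁ ^ 2 - h₂ ^ 2) - (p₁ * x₂ - p₂ * x₁) * (2 * h₁ * h₂))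
      + kg b m Z S * (x₁ ^ 2 + x₂ ^ 2)
      - 1 / 5000 * (2 * nn + (p₁ ^ 2 + p₂ ^ 2) + (x₁ ^ 2 + x₂ ^ 2))) := by
    rw [e3]; positivity
  have h10 : 0 < 8 * kKp m := by linarith
  have h11 := nonneg_of_mul_nonneg_right h9 h10
  linarith

end Helper23.CA
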