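import Mathlib
import Pool.Agent.Helper23.CA.Jt
import Pool.Agent.Helper23.CA.Id
import Pool.Agent.Helper23.CA.Sc2

/-!
Project CL (MP_b2fa09_gt), module AS: `Ig` on the jets of self-shrinkers, reduced form.
-/

set_option autoImplicit false

namespace Helper23.CA

open Helper35.PI Helper35.PI2 Helper32.CL
open scoped ContDiff Topology BigOperators

section Mo
variable (Y x z : ℝ)
lemma m0000 : mo 0 0 0 0 (Y * x, Y, Y ^ 2 * z) = 1 := by simp [mo]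
lemma m0001 : mo 0 0 0 1 (Y * x, Y, Y ^ 2 * z) = Y := by simp [mo]
lemma m1000 : mo 1 0 0 0 (Y * x, Y, Y ^ 2 * z) = Y * x := by simp [mo]
variable (h : Y ≠ 0)
include h
lemma m0120 : mo 0 1 2 0 (Y * x, Y, Y ^ 2 * z) = z := by simp [mo]; field_simp
lemma m1130 : mo 1 1 3 0 (Y * x, Y, Y ^ 2 * z) = x * z := by simp [mo]; field_simp
lemma m0240 : mo 0 2 4 0 (Y * x, Y, Y ^ 2 * z) = z ^ 2 := by simp [mo]; field_simp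
lemma m1010 : mo 1 0 1 0 (Y * x, Y, Y ^ 2 * z) = x := by simp [mo]; field_simp
lemma m0110 : mo 0 1 1 0 (Y * x, Y, Y ^ 2 * z) = Y * z := by simp [mo]; field_simp
lemma m1120 : mo 1 1 2 0 (Y * x, Y, Y ^ 2 * z) = Y * (x * z) := by simp [mo]; field_simp
lemma m0230 : mo 0 2 3 0 (Y * x, Y, Y ^ 2 * z) = Y * z ^ 2 := by simp [mo]; field_simp
lemma m0010 : mo 0 0 1 0 (Y * x, Y, Y ^ 2 * z) = Y⁻¹ := by simp [mo]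
lemma m1020 : mo 1 0 2 0 (Y * x, Y, Y ^ 2 * z) = Y⁻¹ * x := by simp [mo]; field_simp
lemma m0130 : mo 0 1 3 0 (Y * x, Y, Y ^ 2 * z) = Y⁻¹ * z := by simp [mo]; field_simp
lemma m1140 : mo 1 1 4 0 (Y * x, Y, Y ^ 2 * z) = Y⁻¹ * (x * z) := by simp [mo]; field_simp
lemma m0250 : mo 0 2 5 0 (Y * x, Y, Y ^ 2 * z) = Y⁻¹ * z ^ 2 := by simp [mo]; field_simp
lemma m0020 : mo 0 0 2 0 (Y * x, Y, Y ^ 2 * z) = Y⁻¹ ^ 2 := by simp [mo]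
lemma m1030 : mo 1 0 3 0 (Y * x, Y, Y ^ 2 * z) = Y⁻¹ ^ 2 * x := by simp [mo]; field_simp
lemma m0140 : mo 0 1 4 0 (Y * x, Y, Y ^ 2 * z) = Y⁻¹ ^ 2 * z := by simp [mo]; field_simp
lemma m0030 : mo 0 0 3 0 (Y * x, Y, Y ^ 2 * z) = Y⁻¹ ^ 3 := by simp [mo]
end Mo

section
variable {N : ℕ} {r : Rv} {H B₁ B₂ N₁ N₂ : EE N} {A : Fin 2 → Fin 2 → EE N}
  {T : Fin 2 → Fin 2 → Fin 2 → EE N} {v : Fin 2 → ℝ}

lemma Jt.J3_eq (j : Jt r H B₁ B₂ N₁ N₂ A T v) :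
    J3 A = (r.Y * qXX r, r.Y, r.Y ^ 2 * qZZ r) := by
  simp only [J3, j.XX_eq, j.YY_eq, j.ZZ_eq]

lemma Jt.hs (j : Jt r H B₁ B₂ N₁ N₂ A T v) (k : Fin 2) : et T k = ∑ a, v a • A k a := by
  fin_cases k
  · simp only [Fin.zero_eta, Fin.isValue, j.et0, Fin.sum_univ_two, j.a00, j.a01, j.v0, j.v1,
      lc_smul, lc_add]
    congr 1 <;> ring
  · simp only [Fin.mk_one, Fin.isValue, j.et1, Fin.sum_univ_two, j.a10, j.a11, j.v0, j.v1,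
      lc_smul, lc_add]
    congr 1 <;> ring

lemma Jt.hX_eq (j : Jt r H B₁ B₂ N₁ N₂ A T v) :
    hX A T = r.Y * (-2 * qtq r + 2 * r.Y * qSq r) := by
  have h := j.tq_eq
  rw [tq] at h
  rw [hX, h, j.Sq_eq]; ring

lemma Jt.hY_eq (j : Jt r H B₁ B₂ N₁ N₂ A T v) :
    hY A T = r.Y * (-2 * qeq r + 2 * r.Y * qZZ r) := by
  have h := j.eq_eq
  rw [eq2] at h
  rw [hY, h, j.ZZ_eq]; ring

lemma Jt.hZ_eq (j : Jt r H B₁ B₂ N₁ N₂ A T v) :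
    hZ A T = r.Y ^ 2 * (4 * (r.Y * qAz r) - 4 * qzT r + 4 * (r.Y * qUU r)
      - 4 * (r.Y * qzA r) - 2 * qgg r) := by
  have h1 := j.Az_eq
  have h2 := j.zT_eq
  have h3 := j.UU_eq
  have h4 := j.zA_eq
  have h5 := j.gg_eq
  rw [real_inner_self_eq_norm_sq, Uv] at h3
  rw [hZ, h1, h2, h3, h4, h5]; ring

/-- the second derivative term -/
lemma Jt.sd (hne : r.Y ≠ 0) (x y z X' Z' : ℝ) (p : ℝ × ℝ × ℝ)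
    (hp : p = (r.Y * X', r.Y, r.Y ^ 2 * Z')) :
    (2 * (-7 / 20 * mo 0 1 3 0 p) * ((r.Y * x) * (r.Y * y))
      + 2 * (7 / 40 * mo 0 0 2 0 p) * ((r.Y * x) * (r.Y ^ 2 * z))
      + (-43 / 160 * mo 0 1 3 0 p + 21 / 20 * mo 1 1 4 0 p
        - 21 / 10 * mo 0 2 5 0 p) * (r.Y * y) ^ 2
      + 2 * (43 / 320 * mo 0 0 2 0 p - 7 / 20 * mo 1 0 3 0 p
        + 21 / 20 * mo 0 1 4 0 p) * ((r.Y * y) * (r.Y ^ 2 * z))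
      + (-7 / 20 * mo 0 0 3 0 p) * (r.Y ^ 2 * z) ^ 2)
    = r.Y * (-7 / 10 * Z' * (x * y) + 7 / 20 * (x * z)
      + (-43 / 160 * Z' + 21 / 20 * (X' * Z') - 21 / 10 * Z' ^ 2) * y ^ 2
      + 2 * (43 / 320 - 7 / 20 * X' + 21 / 20 * Z') * (y * z) - 7 / 20 * z ^ 2) := by
  rw [hp, m0130 _ _ _ hne, m0020 _ _ _ hne, m1140 _ _ _ hne, m0250 _ _ _ hne,
    m1030 _ _ _ hne, m0140 _ _ _ hne, m0030 _ _ _ hne]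
  field_simp
  ring

/-- first derivatives of `f` -/
lemma Jt.fd (hne : r.Y ≠ 0) (x y z X' Z' : ℝ) (p : ℝ × ℝ × ℝ)
    (hp : p = (r.Y * X', r.Y, r.Y ^ 2 * Z')) :
    FX p * (r.Y * x) + FY p * (r.Y * y) + FZ p * (r.Y ^ 2 * z)
    = r.Y * ((13 / 80 + 7 / 40 * Z') * x
      + (43 / 320 * Z' - 9 / 640 - 7 / 20 * (X' * Z') + 21 / 40 * Z' ^ 2) * y
      + (-43 / 320 + 7 / 40 * X' - 7 / 20 * Z') * z) := by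
  simp only [FX, FY, FZ]
  rw [hp, m0000, m0120 _ _ _ hne, m1130 _ _ _ hne, m0240 _ _ _ hne, m0010 _ _ _ hne,
    m1020 _ _ _ hne, m0130 _ _ _ hne]
  field_simp
  ring

lemma Jt.fa1 (hne : r.Y ≠ 0) (x y z X' Z' : ℝ) (p : ℝ × ℝ × ℝ)
    (hp : p = (r.Y * X', r.Y, r.Y ^ 2 * Z')) :
    fderiv ℝ (a1D 0) p (r.Y * x, r.Y * y, r.Y ^ 2 * z)
    = (-7 / 20 * Z' - 1 / 10) * x
      + (23 / 5 * Z' ^ 2 - 327 / 400 * Z' + 21 / 20 * (X' * Z') + 1 / 10 * X') * y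
      + (-23 / 10 * Z' + 327 / 800 - 7 / 20 * X') * z := by
  have h1 : p.2.1 ≠ 0 := by rw [hp]; exact hne
  rw [(hd_a1D p h1).fderiv]
  simp only [lf3_apply]
  rw [hp, m0010 _ _ _ hne, m0130 _ _ _ hne, m0250 _ _ _ hne, m1140 _ _ _ hne,
    m1020 _ _ _ hne, m0140 _ _ _ hne, m0020 _ _ _ hne, m1030 _ _ _ hne]
  field_simp

lemma Jt.fa2 (hne : r.Y ≠ 0) (x y z X' Z' : ℝ) (p : ℝ × ℝ × ℝ)
    (hp : p = (r.Y * X', r.Y, r.Y ^ 2 * Z')) :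
    fderiv ℝ (a2D 0) p (r.Y * x, r.Y * y, r.Y ^ 2 * z)
    = r.Y * ((7 / 40 * Z' + 1 / 20) * x
      + (21 / 40 * Z' ^ 2 + 11 / 320 * Z' - 53 / 16000 - 7 / 20 * (X' * Z')) * y
      + (-7 / 20 * Z' - 11 / 320 + 7 / 40 * X') * z) := by
  have h1 : p.2.1 ≠ 0 := by rw [hp]; exact hne
  rw [(hd_a2D p h1).fderiv]
  simp only [lf3_apply]
  rw [hp, m0000, m0120 _ _ _ hne, m0240 _ _ _ hne, m1130 _ _ _ hne,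
    m0130 _ _ _ hne, m0010 _ _ _ hne, m1020 _ _ _ hne]
  field_simp

lemma Jt.fa3 (hne : r.Y ≠ 0) (x y z X' Z' : ℝ) (p : ℝ × ℝ × ℝ)
    (hp : p = (r.Y * X', r.Y, r.Y ^ 2 * Z')) :
    fderiv ℝ (a3D 0) p (r.Y * x, r.Y * y, r.Y ^ 2 * z)
    = r.Y⁻¹ * ((-9 / 2 * Z' + 17 / 50) * y + 3 / 2 * z) := by
  have h1 : p.2.1 ≠ 0 := by rw [hp]; exact hne
  rw [(hd_a3D p h1).fderiv]
  simp only [lf3_apply]
  rw [hp, m0140 _ _ _ hne, m0020 _ _ _ hne, m0030 _ _ _ hne]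
  field_simp
  ring

lemma Jt.a1v (hne : r.Y ≠ 0) (X' Z' : ℝ) :
    a1D 0 (r.Y * X', r.Y, r.Y ^ 2 * Z') = -23 / 20 * Z' ^ 2 + 327 / 800 * Z' + 53 / 8000
      - 7 / 20 * (X' * Z') - 1 / 10 * X' := by
  rw [a1D_eq _ hne, m0240 _ _ _ hne, m0120 _ _ _ hne, m0000, m1130 _ _ _ hne,
    m1010 _ _ _ hne]
  ring

lemma Jt.a2v (hne : r.Y ≠ 0) (X' Z' : ℝ) :
    a2D 0 (r.Y * X', r.Y, r.Y ^ 2 * Z') = r.Y * (-7 / 40 * Z' ^ 2 - 11 / 320 * Z' - 53 / 16000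
      + 7 / 40 * (X' * Z') + 1 / 20 * X') := by
  rw [a2D_eq _ hne, m0230 _ _ _ hne, m0110 _ _ _ hne, m0001, m1120 _ _ _ hne, m1000]
  ring

lemma Jt.a3v (hne : r.Y ≠ 0) (X' Z' : ℝ) :
    a3D 0 (r.Y * X', r.Y, r.Y ^ 2 * Z') = r.Y⁻¹ * (3 / 2 * Z' - 17 / 50) := by
  rw [a3D_eq _ hne, m0130 _ _ _ hne, m0010 _ _ _ hne]
  ring

lemma Jt.fv (hne : r.Y ≠ 0) (X' Z' : ℝ) :
    fD 0 (r.Y * X', r.Y, r.Y ^ 2 * Z') = r.Y * (13 / 80 * X' - 43 / 320 * Z' - 9 / 640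
      + 7 / 40 * (X' * Z') - 7 / 40 * Z' ^ 2) := by
  rw [fD_eq _ hne, m1000, m0110 _ _ _ hne, m0001, m1120 _ _ _ hne, m0230 _ _ _ hne]
  ring

lemma Jt.Ut_eq (j : Jt r H B₁ B₂ N₁ N₂ A T v) : (inner ℝ (Uv A) (Uv A) : ℝ)
    = r.Y ^ 3 * qUU r := j.UU_eq

theorem Ig_red (j : Jt r H B₁ B₂ N₁ N₂ A T v) (hpos : 0 < r.Y) (l : ℝ) :
    Ig 1 l 0 A T (-(Hv A)) v = r.Y ^ 2 * kz0 (r.b1 + r.b2) (r.h1 ^ 2 + r.h2 ^ 2)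
        ((r.h1 ^ 2 - r.h2 ^ 2) * (r.b1 - r.b2) + 2 * r.h1 * r.h2 * (2 * r.b3))
        ((r.b1 - r.b2) ^ 2 + (2 * r.b3) ^ 2)
      + r.Y / 4 * Qt r.h1 r.h2 (r.b1 - r.b2) (2 * r.b3) (r.b1 + r.b2) r.v1 r.v2 r.p1 r.p2
        (r.w11 + r.w22) (r.w21 - r.w12) (r.n11 + r.n22) := by
  have hne := hpos.ne'
  have hY : 0 < YY A := by rw [j.YY_eq]; exact hpos
  rw [Ig_shr A T v l hY j.hs]
  simp only [Fin.sum_univ_two, g3, j.gX0, j.gX1, j.gY0, j.gY1, j.gZ0, j.gZ1, j.hX_eq, j.hY_eq,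
    j.hZ_eq, j.eq_eq, j.dU_eq, j.ZZ_eq, j.UU_eq, j.YY_eq, j.Ut0, j.Ut1, j.v0, j.v1]
  rw [Jt.sd hne _ _ _ _ _ _ j.J3_eq, Jt.sd hne _ _ _ _ _ _ j.J3_eq,
    Jt.fd hne _ _ _ _ _ _ j.J3_eq, Jt.fd hne _ _ _ _ _ _ j.J3_eq,
    Jt.fd hne _ _ _ _ _ _ j.J3_eq,
    Jt.fa1 hne _ _ _ _ _ _ j.J3_eq, Jt.fa1 hne _ _ _ _ _ _ j.J3_eq,
    Jt.fa2 hne _ _ _ _ _ _ j.J3_eq, Jt.fa2 hne _ _ _ _ _ _ j.J3_eq,
    Jt.fa3 hne _ _ _ _ _ _ j.J3_eq, Jt.fa3 hne _ _ _ _ _ _ j.J3_eq,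
    j.J3_eq, Jt.a1v hne, Jt.a2v hne, Jt.a3v hne, Jt.fv hne]
  have hYi : r.Y * r.Y⁻¹ = 1 := mul_inv_cancel₀ hne
  have key : r.Y * (-((13 / 80 + 7 / 40 * qZZ r) * (-2 * qtq r + 2 * r.Y * qSq r)
      + (43 / 320 * qZZ r - 9 / 640 - 7 / 20 * (qXX r * qZZ r) + 21 / 40 * qZZ r ^ 2)
        * (-2 * qeq r + 2 * r.Y * qZZ r)
      + (-43 / 320 + 7 / 40 * qXX r - 7 / 20 * qZZ r) * (4 * (r.Y * qAz r) - 4 * qzT r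
        + 4 * (r.Y * qUU r) - 4 * (r.Y * qzA r) - 2 * qgg r))
      + ((-7 / 10 * qZZ r * (qgX0 r * qgY0 r) + 7 / 20 * (qgX0 r * qgZ0 r)
      + (-43 / 160 * qZZ r + 21 / 20 * (qXX r * qZZ r) - 21 / 10 * qZZ r ^ 2) * qgY0 r ^ 2
      + 2 * (43 / 320 - 7 / 20 * qXX r + 21 / 20 * qZZ r) * (qgY0 r * qgZ0 r)
        - 7 / 20 * qgZ0 r ^ 2)
      + (-7 / 10 * qZZ r * (qgX1 r * qgY1 r) + 7 / 20 * (qgX1 r * qgZ1 r)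
      + (-43 / 160 * qZZ r + 21 / 20 * (qXX r * qZZ r) - 21 / 10 * qZZ r ^ 2) * qgY1 r ^ 2
      + 2 * (43 / 320 - 7 / 20 * qXX r + 21 / 20 * qZZ r) * (qgY1 r * qgZ1 r)
        - 7 / 20 * qgZ1 r ^ 2))
      - (r.v1 * ((13 / 80 + 7 / 40 * qZZ r) * qgX0 r
      + (43 / 320 * qZZ r - 9 / 640 - 7 / 20 * (qXX r * qZZ r) + 21 / 40 * qZZ r ^ 2) * qgY0 r
      + (-43 / 320 + 7 / 40 * qXX r - 7 / 20 * qZZ r) * qgZ0 r)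
      + r.v2 * ((13 / 80 + 7 / 40 * qZZ r) * qgX1 r
      + (43 / 320 * qZZ r - 9 / 640 - 7 / 20 * (qXX r * qZZ r) + 21 / 40 * qZZ r ^ 2) * qgY1 r
      + (-43 / 320 + 7 / 40 * qXX r - 7 / 20 * qZZ r) * qgZ1 r))
      + (((-7 / 20 * qZZ r - 1 / 10) * qgX0 r
      + (23 / 5 * qZZ r ^ 2 - 327 / 400 * qZZ r + 21 / 20 * (qXX r * qZZ r)
        + 1 / 10 * qXX r) * qgY0 r
      + (-23 / 10 * qZZ r + 327 / 800 - 7 / 20 * qXX r) * qgZ0 r) * (qgY0 r / 2)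
      + ((-9 / 2 * qZZ r + 17 / 50) * qgY0 r + 3 / 2 * qgZ0 r) * qUt0 r
      + ((7 / 40 * qZZ r + 1 / 20) * qgX0 r
      + (21 / 40 * qZZ r ^ 2 + 11 / 320 * qZZ r - 53 / 16000 - 7 / 20 * (qXX r * qZZ r)) * qgY0 r
      + (-7 / 20 * qZZ r - 11 / 320 + 7 / 40 * qXX r) * qgZ0 r) * r.v1
      + (((-7 / 20 * qZZ r - 1 / 10) * qgX1 r
      + (23 / 5 * qZZ r ^ 2 - 327 / 400 * qZZ r + 21 / 20 * (qXX r * qZZ r)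
        + 1 / 10 * qXX r) * qgY1 r
      + (-23 / 10 * qZZ r + 327 / 800 - 7 / 20 * qXX r) * qgZ1 r) * (qgY1 r / 2)
      + ((-9 / 2 * qZZ r + 17 / 50) * qgY1 r + 3 / 2 * qgZ1 r) * qUt1 r
      + ((7 / 40 * qZZ r + 1 / 20) * qgX1 r
      + (21 / 40 * qZZ r ^ 2 + 11 / 320 * qZZ r - 53 / 16000 - 7 / 20 * (qXX r * qZZ r)) * qgY1 r
      + (-7 / 20 * qZZ r - 11 / 320 + 7 / 40 * qXX r) * qgZ1 r) * r.v2))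
      + (-23 / 20 * qZZ r ^ 2 + 327 / 800 * qZZ r + 53 / 8000
      - 7 / 20 * (qXX r * qZZ r) - 1 / 10 * qXX r) * (qeq r - r.Y * qZZ r)
      + (3 / 2 * qZZ r - 17 / 50) * (qdU r - r.Y * qUU r)
      - (-7 / 40 * qZZ r ^ 2 - 11 / 320 * qZZ r - 53 / 16000
      + 7 / 40 * (qXX r * qZZ r) + 1 / 20 * qXX r) * (r.Y + (r.v1 ^ 2 + r.v2 ^ 2))
      + (13 / 80 * qXX r - 43 / 320 * qZZ r - 9 / 640
      + 7 / 40 * (qXX r * qZZ r) - 7 / 40 * qZZ r ^ 2) * (r.Y + (r.v1 ^ 2 + r.v2 ^ 2)))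
      = r.Y ^ 2 * kz0 (r.b1 + r.b2) (r.h1 ^ 2 + r.h2 ^ 2)
        ((r.h1 ^ 2 - r.h2 ^ 2) * (r.b1 - r.b2) + 2 * r.h1 * r.h2 * (2 * r.b3))
        ((r.b1 - r.b2) ^ 2 + (2 * r.b3) ^ 2)
      + r.Y / 4 * Qt r.h1 r.h2 (r.b1 - r.b2) (2 * r.b3) (r.b1 + r.b2) r.v1 r.v2 r.p1 r.p2
        (r.w11 + r.w22) (r.w21 - r.w12) (r.n11 + r.n22) := by
    simp only [kz0, Qt, kz, kg, kq, ke, kc, kL, kK, kA, kB, qXX, qZZ, qgX0, qgX1, qgY0, qgY1,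
      qgZ0, qgZ1, qSq, qtq, qeq, qUU, qzT, qgg, qAz, qzA, qdU, qUt0, qUt1]
    ring
  rw [← key]
  linear_combination (r.Y * ((3 / 2 * qZZ r - 17 / 50) * (qdU r - r.Y * qUU r)
    + ((-9 / 2 * qZZ r + 17 / 50) * qgY0 r + 3 / 2 * qgZ0 r) * qUt0 r
    + ((-9 / 2 * qZZ r + 17 / 50) * qgY1 r + 3 / 2 * qgZ1 r) * qUt1 r)) * hYi

end

end Helper23.CA
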