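import Mathlib
import Pool.Agent.Helper23.CA.Id2

/-!
Project CL (MP_b2fa09_gt), module AS: the certificate inequality on the jets of self-shrinkers.
-/

set_option autoImplicit false

namespace Helper23.CA

open Helper35.PI Helper35.PI2 Helper32.CL
open scoped ContDiff Topology BigOperators

variable {N : ℕ}

/-- the parametrisation of the jets -/
theorem exists_jt (A : Fin 2 → Fin 2 → EE N) (T : Fin 2 → Fin 2 → Fin 2 → EE N)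
    (v : Fin 2 → ℝ) (hA : SymV A) (hT : Sym3V T) (hpos : 0 < YY A)
    (hs : ∀ k, et T k = ∑ a, v a • A k a) :
    ∃ (r : Rv) (H B₁ B₂ N₁ N₂ : EE N), Jt r H B₁ B₂ N₁ N₂ A T v := by
  have hne : YY A ≠ 0 := hpos.ne'
  obtain ⟨Y, hY⟩ : ∃ Y, Y = YY A := ⟨_, rfl⟩
  obtain ⟨H, hH⟩ : ∃ H, H = Hv A := ⟨_, rfl⟩
  have hHH : (inner ℝ H H : ℝ) = Y := by rw [hH, hY, YY, real_inner_self_eq_norm_sq]
  have hYne : Y ≠ 0 := by rw [hY]; exact hne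
  obtain ⟨P, hP⟩ : ∃ P, P = (1 / 2 : ℝ) • (A 0 0 - A 1 1) := ⟨_, rfl⟩
  obtain ⟨h1, hh1⟩ : ∃ h1 : ℝ, h1 = inner ℝ H P / Y := ⟨_, rfl⟩
  obtain ⟨h2, hh2⟩ : ∃ h2 : ℝ, h2 = -(inner ℝ H (A 0 1)) / Y := ⟨_, rfl⟩
  obtain ⟨B₁, hB₁⟩ : ∃ B, B = P - h1 • H := ⟨_, rfl⟩
  obtain ⟨B₂, hB₂⟩ : ∃ B, B = -(A 0 1) - h2 • H := ⟨_, rfl⟩
  have hHB₁ : (inner ℝ H B₁ : ℝ) = 0 := by
    rw [hB₁, inner_sub_right, real_inner_smul_right, hHH, hh1]; field_simp; ring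
  have hHB₂ : (inner ℝ H B₂ : ℝ) = 0 := by
    rw [hB₂, inner_sub_right, real_inner_smul_right, hHH, hh2, inner_neg_right]
    field_simp; ring
  obtain ⟨b1, hb1⟩ : ∃ x : ℝ, x = inner ℝ B₁ B₁ / Y := ⟨_, rfl⟩
  obtain ⟨b2, hb2⟩ : ∃ x : ℝ, x = inner ℝ B₂ B₂ / Y := ⟨_, rfl⟩
  obtain ⟨b3, hb3⟩ : ∃ x : ℝ, x = inner ℝ B₁ B₂ / Y := ⟨_, rfl⟩
  obtain ⟨C₀, hC₀⟩ : ∃ C, C = (1 / 2 : ℝ) • (T 0 0 0 - (3 : ℝ) • T 0 1 1) := ⟨_, rfl⟩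
  obtain ⟨C₁, hC₁⟩ : ∃ C, C = (1 / 2 : ℝ) • (T 1 1 1 - (3 : ℝ) • T 0 0 1) := ⟨_, rfl⟩
  obtain ⟨c0, hc0⟩ : ∃ x : ℝ, x = inner ℝ H C₀ / Y := ⟨_, rfl⟩
  obtain ⟨c1, hc1⟩ : ∃ x : ℝ, x = inner ℝ H C₁ / Y := ⟨_, rfl⟩
  obtain ⟨p1, hp1⟩ : ∃ x : ℝ, x = c0 - (1 / 2 * (v 0 * h1 + v 1 * h2)
    + v 0 * (h1 ^ 2 - h2 ^ 2 - (b1 - b2)) - v 1 * (2 * h1 * h2 - 2 * b3)) := ⟨_, rfl⟩
  obtain ⟨p2, hp2⟩ : ∃ x : ℝ, x = c1 - (1 / 2 * (v 0 * h2 - v 1 * h1)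
    + v 0 * (2 * h1 * h2 - 2 * b3) + v 1 * (h1 ^ 2 - h2 ^ 2 - (b1 - b2))) := ⟨_, rfl⟩
  obtain ⟨l1, hl1⟩ : ∃ x : ℝ, x = 2 * (h1 * v 0 - h2 * v 1) + v 0 / 2 := ⟨_, rfl⟩
  obtain ⟨l2, hl2⟩ : ∃ x : ℝ, x = 2 * (h1 * v 1 + h2 * v 0) - v 1 / 2 := ⟨_, rfl⟩
  obtain ⟨N₁, hN₁⟩ : ∃ x, x = C₀ - c0 • H - l1 • B₁ + l2 • B₂ := ⟨_, rfl⟩
  obtain ⟨N₂, hN₂⟩ : ∃ x, x = C₁ - c1 • H - l1 • B₂ - l2 • B₁ := ⟨_, rfl⟩
  have hHN₁ : (inner ℝ H N₁ : ℝ) = 0 := by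
    rw [hN₁, inner_add_right, inner_sub_right, inner_sub_right, real_inner_smul_right,
      real_inner_smul_right, real_inner_smul_right, hHB₁, hHB₂, hHH, hc0]
    field_simp; ring
  have hHN₂ : (inner ℝ H N₂ : ℝ) = 0 := by
    rw [hN₂, inner_sub_right, inner_sub_right, inner_sub_right, real_inner_smul_right,
      real_inner_smul_right, real_inner_smul_right, hHB₁, hHB₂, hHH, hc1]
    field_simp; ring
  have s010 : T 0 1 0 = T 0 0 1 := hT.2 0 1 0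
  have s100 : T 1 0 0 = T 0 0 1 := (hT.1 1 0 0).trans s010
  have s101 : T 1 0 1 = T 0 1 1 := hT.1 1 0 1
  have s110 : T 1 1 0 = T 0 1 1 := (hT.2 1 1 0).trans s101
  have sA : A 1 0 = A 0 1 := hA 1 0
  have e0 : T 0 0 0 + T 0 1 1 = v 0 • A 0 0 + v 1 • A 0 1 := by
    have := hs 0
    simp only [et, Fin.sum_univ_two] at this
    rw [s110] at this
    exact this
  have e1 : T 0 0 1 + T 1 1 1 = v 0 • A 0 1 + v 1 • A 1 1 := by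
    have := hs 1
    simp only [et, Fin.sum_univ_two] at this
    rw [sA] at this
    exact this
  have hHA : H = A 0 0 + A 1 1 := by rw [hH]; simp [Hv, Fin.sum_univ_two]
  have a00 : A 0 0 = (1 / 2 + h1) • H + B₁ := by
    rw [hB₁, hP, hHA]; module
  have a11 : A 1 1 = (1 / 2 - h1) • H - B₁ := by
    rw [hB₁, hP, hHA]; module
  have a01 : A 0 1 = -h2 • H - B₂ := by
    rw [hB₂]; module
  have C0e : C₀ = c0 • H + N₁ + l1 • B₁ - l2 • B₂ := by rw [hN₁]; module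
  have C1e : C₁ = c1 • H + N₂ + l1 • B₂ + l2 • B₁ := by rw [hN₂]; module
  have t000 : T 0 0 0 = (3 / 4 : ℝ) • (v 0 • A 0 0 + v 1 • A 0 1) + (1 / 2 : ℝ) • C₀ := by
    rw [← e0, hC₀]; module
  have t011 : T 0 1 1 = (1 / 4 : ℝ) • (v 0 • A 0 0 + v 1 • A 0 1) - (1 / 2 : ℝ) • C₀ := by
    rw [← e0, hC₀]; module
  have t111 : T 1 1 1 = (3 / 4 : ℝ) • (v 0 • A 0 1 + v 1 • A 1 1) + (1 / 2 : ℝ) • C₁ := by
    rw [← e1, hC₁]; module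
  have t001 : T 0 0 1 = (1 / 4 : ℝ) • (v 0 • A 0 1 + v 1 • A 1 1) - (1 / 2 : ℝ) • C₁ := by
    rw [← e1, hC₁]; module
  have hmul : ∀ x : ℝ, x = Y * (x / Y) := fun x => by field_simp
  obtain ⟨r, hr⟩ : ∃ r : Rv, r = Rv.mk Y h1 h2 b1 b2 b3 (v 0) (v 1) p1 p2
      (inner ℝ B₁ N₁ / Y) (inner ℝ B₂ N₁ / Y) (inner ℝ B₁ N₂ / Y) (inner ℝ B₂ N₂ / Y)
      (inner ℝ N₁ N₁ / Y) (inner ℝ N₁ N₂ / Y) (inner ℝ N₂ N₂ / Y) :=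
    ⟨_, rfl⟩
  have k1 : ka1 r = c0 := by
    rw [ka1, hr]; simp only; rw [hp1]; ring
  have k2 : ka2 r = c1 := by
    rw [ka2, hr]; simp only; rw [hp2]; ring
  have k3 : la1 r = l1 := by rw [la1, hr, hl1]
  have k4 : la2 r = l2 := by rw [la2, hr, hl2]
  refine ⟨r, H, B₁, B₂, N₁, N₂, ?_⟩
  have f1 : r.h1 = h1 := by rw [hr]
  have f2 : r.h2 = h2 := by rw [hr]
  have f3 : r.v1 = v 0 := by rw [hr]
  have f4 : r.v2 = v 1 := by rw [hr]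
  constructor
  · constructor
    all_goals (try (rw [hr]))
    · exact hHH
    · exact hHB₁
    · exact hHB₂
    · exact hHN₁
    · exact hHN₂
    · rw [hb1]; exact hmul _
    · rw [hb2]; exact hmul _
    · rw [hb3]; exact hmul _
    all_goals exact hmul _
  · rw [f1, lc]; conv_lhs => rw [a00]
    module
  · rw [f1, lc]; conv_lhs => rw [a11]
    module
  · rw [f2, lc]; conv_lhs => rw [a01]
    module
  · rw [f2, lc, sA]; conv_lhs => rw [a01]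
    module
  · exact f3.symm
  · exact f4.symm
  · rw [k1, k3, k4, f1, f2, f3, f4, lc, t000, a00, a01, C0e]; module
  · rw [k1, k3, k4, f1, f2, f3, f4, lc, t011, a00, a01, C0e]; module
  · rw [k2, k3, k4, f1, f2, f3, f4, lc, t001, a11, a01, C1e]; module
  · rw [k2, k3, k4, f1, f2, f3, f4, lc, t111, a11, a01, C1e]; module
  · exact s010
  · exact s100
  · exact s101
  · exact s110

section
variable {r : Rv} {H B₁ B₂ N₁ N₂ : EE N}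

lemma Gr.b1_nn (g : Gr r H B₁ B₂ N₁ N₂) (hY : 0 < r.Y) : 0 ≤ r.b1 := by
  have h : 0 ≤ r.Y * r.b1 := by rw [← g.g11]; exact real_inner_self_nonneg
  exact nonneg_of_mul_nonneg_right h hY

lemma Gr.b2_nn (g : Gr r H B₁ B₂ N₁ N₂) (hY : 0 < r.Y) : 0 ≤ r.b2 := by
  have h : 0 ≤ r.Y * r.b2 := by rw [← g.g22]; exact real_inner_self_nonneg
  exact nonneg_of_mul_nonneg_right h hY

lemma Gr.n1_nn (g : Gr r H B₁ B₂ N₁ N₂) (hY : 0 < r.Y) : 0 ≤ r.n11 := by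
  have h : 0 ≤ r.Y * r.n11 := by rw [← g.g33]; exact real_inner_self_nonneg
  exact nonneg_of_mul_nonneg_right h hY

lemma Gr.n2_nn (g : Gr r H B₁ B₂ N₁ N₂) (hY : 0 < r.Y) : 0 ≤ r.n22 := by
  have h : 0 ≤ r.Y * r.n22 := by rw [← g.g44]; exact real_inner_self_nonneg
  exact nonneg_of_mul_nonneg_right h hY

lemma Gr.S_le (g : Gr r H B₁ B₂ N₁ N₂) (hY : 0 < r.Y) :
    (r.b1 - r.b2) ^ 2 + (2 * r.b3) ^ 2 ≤ (r.b1 + r.b2) ^ 2 := by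
  have h := real_inner_mul_inner_self_le B₁ B₂
  rw [g.g12, g.g11, g.g22] at h
  have h2 : 0 ≤ r.Y ^ 2 * (r.b1 * r.b2 - r.b3 ^ 2) := by nlinarith
  have h3 := nonneg_of_mul_nonneg_right h2 (by positivity)
  nlinarith

lemma Gr.W_le (g : Gr r H B₁ B₂ N₁ N₂) (hY : 0 < r.Y) :
    (r.w11 + r.w22) ^ 2 + (r.w21 - r.w12) ^ 2 ≤ (r.b1 + r.b2) * (r.n11 + r.n22) := by
  have hb1 := g.b1_nn hY
  have hb2 := g.b2_nn hY
  obtain ⟨a, ha⟩ : ∃ a, a = r.w11 + r.w22 := ⟨_, rfl⟩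
  obtain ⟨c, hc⟩ : ∃ c, c = r.w21 - r.w12 := ⟨_, rfl⟩
  obtain ⟨b, hb⟩ : ∃ b, b = r.b1 + r.b2 := ⟨_, rfl⟩
  have s5 : (inner ℝ B₂ B₁ : ℝ) = r.Y * r.b3 := by rw [real_inner_comm]; exact g.g12
  have s6 : (inner ℝ N₁ B₁ : ℝ) = r.Y * r.w11 := by rw [real_inner_comm]; exact g.g13
  have s7 : (inner ℝ N₁ B₂ : ℝ) = r.Y * r.w12 := by rw [real_inner_comm]; exact g.g23
  have s8 : (inner ℝ N₂ B₁ : ℝ) = r.Y * r.w21 := by rw [real_inner_comm]; exact g.g14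
  have s9 : (inner ℝ N₂ B₂ : ℝ) = r.Y * r.w22 := by rw [real_inner_comm]; exact g.g24
  have h1 : 0 ≤ (inner ℝ (b • N₁ - (a • B₁ - c • B₂)) (b • N₁ - (a • B₁ - c • B₂)) : ℝ)
      + inner ℝ (b • N₂ - (a • B₂ + c • B₁)) (b • N₂ - (a • B₂ + c • B₁)) :=
    add_nonneg real_inner_self_nonneg real_inner_self_nonneg
  have h2 : (inner ℝ (b • N₁ - (a • B₁ - c • B₂)) (b • N₁ - (a • B₁ - c • B₂)) : ℝ)
      + inner ℝ (b • N₂ - (a • B₂ + c • B₁)) (b • N₂ - (a • B₂ + c • B₁))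
      = r.Y * (b * (b * (r.n11 + r.n22) - (a ^ 2 + c ^ 2))) := by
    simp only [inner_sub_left, inner_sub_right, inner_add_left, inner_add_right,
      real_inner_smul_left, real_inner_smul_right, s5, s6, s7, s8, s9, g.g11, g.g22, g.g12,
      g.g13, g.g23, g.g14, g.g24, g.g33, g.g44]
    rw [ha, hc, hb]; ring
  rw [h2] at h1
  have h3 := nonneg_of_mul_nonneg_right h1 hY
  rw [← ha, ← hc, ← hb]
  have hb0 : 0 ≤ b := by rw [hb]; positivity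
  rcases eq_or_lt_of_le hb0 with h0 | h0
  · have e1 : r.b1 = 0 := by linarith
    have e2 : r.b2 = 0 := by linarith
    have z1 : B₁ = 0 := by
      have := g.g11
      rw [e1, mul_zero] at this
      exact inner_self_eq_zero.1 this
    have z2 : B₂ = 0 := by
      have := g.g22
      rw [e2, mul_zero] at this
      exact inner_self_eq_zero.1 this
    have w1 : r.w11 = 0 := by
      have := g.g13
      rw [z1, inner_zero_left] at this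
      rcases mul_eq_zero.1 this.symm with h | h
      · exact absurd h hY.ne'
      · exact h
    have w2 : r.w12 = 0 := by
      have := g.g23
      rw [z2, inner_zero_left] at this
      rcases mul_eq_zero.1 this.symm with h | h
      · exact absurd h hY.ne'
      · exact h
    have w3 : r.w21 = 0 := by
      have := g.g14
      rw [z1, inner_zero_left] at this
      rcases mul_eq_zero.1 this.symm with h | h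
      · exact absurd h hY.ne'
      · exact h
    have w4 : r.w22 = 0 := by
      have := g.g24
      rw [z2, inner_zero_left] at this
      rcases mul_eq_zero.1 this.symm with h | h
      · exact absurd h hY.ne'
      · exact h
    rw [ha, hc, w1, w2, w3, w4, ← h0]; norm_num
  · have := nonneg_of_mul_nonneg_right h3 h0
    linarith

lemma qtq_form (r : Rv) : qtq r
    = 3 / 4 * ((r.v1 / 2 + (r.v1 * r.h1 - r.v2 * r.h2)) ^ 2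
        + (-r.v2 / 2 + (r.v1 * r.h2 + r.v2 * r.h1)) ^ 2
        + (r.v1 ^ 2 + r.v2 ^ 2) * (r.b1 + r.b2))
      + ka1 r ^ 2 + ka2 r ^ 2 + (r.n11 + r.n22)
      + 2 * ((r.w11 + r.w22) * la1 r + (r.w21 - r.w12) * la2 r)
      + (la1 r ^ 2 + la2 r ^ 2) * (r.b1 + r.b2) := by
  simp only [qtq, ka1, ka2, la1, la2]
  ring

lemma Gr.qtq_le (g : Gr r H B₁ B₂ N₁ N₂) (hY : 0 < r.Y)
    (h : 6 * ((r.b1 + r.b2) + (r.h1 ^ 2 + r.h2 ^ 2)) ≤ 1) :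
    qtq r ≤ 10 * (2 * (r.n11 + r.n22) + (r.p1 ^ 2 + r.p2 ^ 2) + (r.v1 ^ 2 + r.v2 ^ 2)) := by
  have hb1 := g.b1_nn hY
  have hb2 := g.b2_nn hY
  have hn1 := g.n1_nn hY
  have hn2 := g.n2_nn hY
  have hW := g.W_le hY
  have hS := g.S_le hY
  obtain ⟨b, hb⟩ : ∃ b, b = r.b1 + r.b2 := ⟨_, rfl⟩
  obtain ⟨m, hm⟩ : ∃ m, m = r.h1 ^ 2 + r.h2 ^ 2 := ⟨_, rfl⟩
  obtain ⟨nn, hnn⟩ : ∃ nn, nn = r.n11 + r.n22 := ⟨_, rfl⟩
  obtain ⟨x, hx⟩ : ∃ x, x = r.v1 ^ 2 + r.v2 ^ 2 := ⟨_, rfl⟩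
  have hb0 : 0 ≤ b := by rw [hb]; positivity
  have hm0 : 0 ≤ m := by rw [hm]; positivity
  have hn0 : 0 ≤ nn := by rw [hnn]; positivity
  have hx0 : 0 ≤ x := by rw [hx]; positivity
  rw [← hb, ← hm] at h
  rw [← hb, ← hnn] at hW
  rw [← hb] at hS
  rw [qtq_form, ← hb, ← hnn, ← hx]
  -- (i) |x̄/2 + x h|² ≤ 2 (1/4 + m) |x|²
  have i1 : (r.v1 / 2 + (r.v1 * r.h1 - r.v2 * r.h2)) ^ 2
        + (-r.v2 / 2 + (r.v1 * r.h2 + r.v2 * r.h1)) ^ 2 ≤ 2 * (1 / 4 + m) * x := by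
    have e : 2 * (1 / 4 + m) * x - ((r.v1 / 2 + (r.v1 * r.h1 - r.v2 * r.h2)) ^ 2
        + (-r.v2 / 2 + (r.v1 * r.h2 + r.v2 * r.h1)) ^ 2)
        = (r.v1 / 2 - (r.v1 * r.h1 - r.v2 * r.h2)) ^ 2
        + (-r.v2 / 2 - (r.v1 * r.h2 + r.v2 * r.h1)) ^ 2 := by rw [hm, hx]; ring
    nlinarith [sq_nonneg (r.v1 / 2 - (r.v1 * r.h1 - r.v2 * r.h2)),
      sq_nonneg (-r.v2 / 2 - (r.v1 * r.h2 + r.v2 * r.h1))]
  -- (ii) |λ|² ≤ 2 (4 m + 1/4) |x|²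
  have i2 : la1 r ^ 2 + la2 r ^ 2 ≤ 2 * (4 * m + 1 / 4) * x := by
    have e : 2 * (4 * m + 1 / 4) * x - (la1 r ^ 2 + la2 r ^ 2)
        = (2 * (r.h1 * r.v1 - r.h2 * r.v2) - r.v1 / 2) ^ 2
        + (2 * (r.h1 * r.v2 + r.h2 * r.v1) + r.v2 / 2) ^ 2 := by
      rw [hm, hx, la1, la2]; ring
    nlinarith [sq_nonneg (2 * (r.h1 * r.v1 - r.h2 * r.v2) - r.v1 / 2),
      sq_nonneg (2 * (r.h1 * r.v2 + r.h2 * r.v1) + r.v2 / 2)]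
  -- (iii) |κ|²
  obtain ⟨g1, hg1⟩ : ∃ g, g = r.h1 ^ 2 - r.h2 ^ 2 - (r.b1 - r.b2) := ⟨_, rfl⟩
  obtain ⟨g2, hg2⟩ : ∃ g, g = 2 * r.h1 * r.h2 - 2 * r.b3 := ⟨_, rfl⟩
  have i3 : g1 ^ 2 + g2 ^ 2 ≤ 2 * (m ^ 2 + b ^ 2) := by
    have e : 2 * (m ^ 2 + ((r.b1 - r.b2) ^ 2 + (2 * r.b3) ^ 2)) - (g1 ^ 2 + g2 ^ 2)
        = (r.h1 ^ 2 - r.h2 ^ 2 + (r.b1 - r.b2)) ^ 2 + (2 * r.h1 * r.h2 + 2 * r.b3) ^ 2 := by
      rw [hg1, hg2, hm]; ring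
    nlinarith [sq_nonneg (r.h1 ^ 2 - r.h2 ^ 2 + (r.b1 - r.b2)),
      sq_nonneg (2 * r.h1 * r.h2 + 2 * r.b3)]
  have i4 : ka1 r ^ 2 + ka2 r ^ 2 ≤ 3 * ((r.p1 ^ 2 + r.p2 ^ 2) + m * x / 4
      + (g1 ^ 2 + g2 ^ 2) * x) := by
    have e : 3 * ((r.p1 ^ 2 + r.p2 ^ 2) + m * x / 4 + (g1 ^ 2 + g2 ^ 2) * x)
        - (ka1 r ^ 2 + ka2 r ^ 2)
        = (r.p1 - 1 / 2 * (r.v1 * r.h1 + r.v2 * r.h2)) ^ 2
        + (r.p2 - 1 / 2 * (r.v1 * r.h2 - r.v2 * r.h1)) ^ 2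
        + (r.p1 - (r.v1 * g1 - r.v2 * g2)) ^ 2 + (r.p2 - (r.v1 * g2 + r.v2 * g1)) ^ 2
        + (1 / 2 * (r.v1 * r.h1 + r.v2 * r.h2) - (r.v1 * g1 - r.v2 * g2)) ^ 2
        + (1 / 2 * (r.v1 * r.h2 - r.v2 * r.h1) - (r.v1 * g2 + r.v2 * g1)) ^ 2 := by
      have k1 : ka1 r = r.p1 + 1 / 2 * (r.v1 * r.h1 + r.v2 * r.h2)
        + (r.v1 * g1 - r.v2 * g2) := by rw [ka1, hg1, hg2]; ring
      have k2 : ka2 r = r.p2 + 1 / 2 * (r.v1 * r.h2 - r.v2 * r.h1)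
        + (r.v1 * g2 + r.v2 * g1) := by rw [ka2, hg1, hg2]; ring
      rw [k1, k2, hm, hx]; ring
    nlinarith [sq_nonneg (r.p1 - 1 / 2 * (r.v1 * r.h1 + r.v2 * r.h2)),
      sq_nonneg (r.p2 - 1 / 2 * (r.v1 * r.h2 - r.v2 * r.h1)),
      sq_nonneg (r.p1 - (r.v1 * g1 - r.v2 * g2)), sq_nonneg (r.p2 - (r.v1 * g2 + r.v2 * g1)),
      sq_nonneg (1 / 2 * (r.v1 * r.h1 + r.v2 * r.h2) - (r.v1 * g1 - r.v2 * g2)),
      sq_nonneg (1 / 2 * (r.v1 * r.h2 - r.v2 * r.h1) - (r.v1 * g2 + r.v2 * g1))]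
  have i5 : 2 * ((r.w11 + r.w22) * la1 r + (r.w21 - r.w12) * la2 r)
      ≤ ((r.w11 + r.w22) ^ 2 + (r.w21 - r.w12) ^ 2) + (la1 r ^ 2 + la2 r ^ 2) := by
    nlinarith [sq_nonneg ((r.w11 + r.w22) - la1 r), sq_nonneg ((r.w21 - r.w12) - la2 r)]
  have hb6 : b ≤ 1 / 6 := by linarith
  have hm6 : m ≤ 1 / 6 := by linarith
  have j1 : m * x ≤ 1 / 6 * x := mul_le_mul_of_nonneg_right hm6 hx0
  have j2 : b * x ≤ 1 / 6 * x := mul_le_mul_of_nonneg_right hb6 hx0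
  have j3 : b * nn ≤ 1 / 6 * nn := mul_le_mul_of_nonneg_right hb6 hn0
  have j4 : g1 ^ 2 + g2 ^ 2 ≤ 1 := by nlinarith
  have j5 : (g1 ^ 2 + g2 ^ 2) * x ≤ 1 * x := mul_le_mul_of_nonneg_right j4 hx0
  have j6 : la1 r ^ 2 + la2 r ^ 2 ≤ 2 * x := by nlinarith
  have j7 : (la1 r ^ 2 + la2 r ^ 2) * b ≤ 2 * x * (1 / 6) :=
    mul_le_mul j6 hb6 hb0 (by positivity)
  nlinarith [sq_nonneg r.p1, sq_nonneg r.p2]

end

/-- module AS -/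
theorem hAS : StAS := by
  intro c₀ hc₀
  obtain ⟨κ, hκ0, hκ1, hκ2⟩ : ∃ κ : ℝ, 0 < κ ∧ κ ≤ 1 ∧ κ ≤ 5 / 2 - 3 * c₀ :=
    ⟨min 1 (5 / 2 - 3 * c₀), lt_min one_pos (by linarith), min_le_left _ _, min_le_right _ _⟩
  refine ⟨κ / 300000, by positivity, ?_⟩
  intro N A T v l hA hT hpos hX hs
  obtain ⟨r, H, B₁, B₂, N₁, N₂, j⟩ := exists_jt A T v hA hT hpos hs
  have hY : 0 < r.Y := by rw [← j.YY_eq]; exact hpos
  have g := j.gr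
  rw [Ig_red j hY l, j.YY_eq, j.XX_eq, j.tq_eq]
  simp only [Fin.sum_univ_two, j.v0, j.v1]
  rw [j.XX_eq, j.YY_eq] at hX
  have hb1 := g.b1_nn hY
  have hb2 := g.b2_nn hY
  have hn1 := g.n1_nn hY
  have hn2 := g.n2_nn hY
  have hW := g.W_le hY
  have hS := g.S_le hY
  have hq : qXX r ≤ c₀ := by
    have : r.Y * (c₀ - qXX r) ≥ 0 := by nlinarith
    have := nonneg_of_mul_nonneg_right this hY
    linarith
  have hqe : qXX r = 1 / 2 + 2 * ((r.b1 + r.b2) + (r.h1 ^ 2 + r.h2 ^ 2)) := by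
    rw [qXX]; ring
  have hbm : κ ≤ 1 - 6 * (r.b1 + r.b2) - 6 * (r.h1 ^ 2 + r.h2 ^ 2) := by
    rw [hqe] at hq; linarith
  have h6 : 6 * ((r.b1 + r.b2) + (r.h1 ^ 2 + r.h2 ^ 2)) ≤ 1 := by linarith
  have hb0 : 0 ≤ r.b1 + r.b2 := by positivity
  have hn0 : 0 ≤ r.n11 + r.n22 := by positivity
  have hm0 : 0 ≤ r.h1 ^ 2 + r.h2 ^ 2 := by positivity
  have hZ : ((r.h1 ^ 2 - r.h2 ^ 2) * (r.b1 - r.b2) + 2 * r.h1 * r.h2 * (2 * r.b3)) ^ 2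
      ≤ (r.h1 ^ 2 + r.h2 ^ 2) ^ 2 * ((r.b1 - r.b2) ^ 2 + (2 * r.b3) ^ 2) := by
    nlinarith [sq_nonneg ((r.h1 ^ 2 - r.h2 ^ 2) * (2 * r.b3)
      - 2 * r.h1 * r.h2 * (r.b1 - r.b2))]
  have hz := kz0_lower (r.b1 + r.b2) (r.h1 ^ 2 + r.h2 ^ 2) _ _ hb0 hm0 h6
    (by positivity) hS hZ
  have hQ := Qt_lower r.h1 r.h2 (r.b1 - r.b2) (2 * r.b3) (r.b1 + r.b2) r.v1 r.v2 r.p1 r.p2
    (r.w11 + r.w22) (r.w21 - r.w12) (r.n11 + r.n22) hb0 h6 hS hW hn0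
  have ht := g.qtq_le hY h6
  obtain ⟨z, hzd⟩ : ∃ z, z = kz0 (r.b1 + r.b2) (r.h1 ^ 2 + r.h2 ^ 2)
    ((r.h1 ^ 2 - r.h2 ^ 2) * (r.b1 - r.b2) + 2 * r.h1 * r.h2 * (2 * r.b3))
    ((r.b1 - r.b2) ^ 2 + (2 * r.b3) ^ 2) := ⟨_, rfl⟩
  obtain ⟨Q, hQd⟩ : ∃ Q, Q = Qt r.h1 r.h2 (r.b1 - r.b2) (2 * r.b3) (r.b1 + r.b2) r.v1 r.v2
    r.p1 r.p2 (r.w11 + r.w22) (r.w21 - r.w12) (r.n11 + r.n22) := ⟨_, rfl⟩
  rw [← hzd] at hz ⊢
  rw [← hQd] at hQ ⊢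
  rw [hqe]
  obtain ⟨b, hb⟩ : ∃ b, b = r.b1 + r.b2 := ⟨_, rfl⟩
  obtain ⟨m, hm⟩ : ∃ m, m = r.h1 ^ 2 + r.h2 ^ 2 := ⟨_, rfl⟩
  obtain ⟨nn, hnn⟩ : ∃ nn, nn = r.n11 + r.n22 := ⟨_, rfl⟩
  obtain ⟨x, hx⟩ : ∃ x, x = r.v1 ^ 2 + r.v2 ^ 2 := ⟨_, rfl⟩
  obtain ⟨p, hp⟩ : ∃ p, p = r.p1 ^ 2 + r.p2 ^ 2 := ⟨_, rfl⟩
  have hx0 : 0 ≤ x := by rw [hx]; positivity
  have hp0 : 0 ≤ p := by rw [hp]; positivity
  rw [← hb] at hb0
  rw [← hm] at hm0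
  rw [← hnn] at hn0
  rw [← hb, ← hm] at hz hbm
  rw [← hnn, ← hp, ← hx] at hQ ht
  rw [← hb, ← hm, ← hx]
  set Y := r.Y
  have k1 : κ / 10000 * (b + m) ≤ z := by nlinarith
  have k2 : Y ^ 2 * (κ / 10000 * (b + m)) ≤ Y ^ 2 * z := by
    exact mul_le_mul_of_nonneg_left k1 (by positivity)
  have k3 : Y / 4 * (1 / 5000 * (2 * nn + p + x)) ≤ Y / 4 * Q :=
    mul_le_mul_of_nonneg_left hQ (by positivity)
  have k4 : κ / 300000 * (Y * qtq r) ≤ 1 / 300000 * (Y * (10 * (2 * nn + p + x))) := by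
    have h1 : Y * qtq r ≤ Y * (10 * (2 * nn + p + x)) := mul_le_mul_of_nonneg_left ht hY.le
    have h2 : 0 ≤ Y * (10 * (2 * nn + p + x)) := by positivity
    calc κ / 300000 * (Y * qtq r) ≤ κ / 300000 * (Y * (10 * (2 * nn + p + x))) :=
          mul_le_mul_of_nonneg_left h1 (by positivity)
      _ ≤ 1 / 300000 * (Y * (10 * (2 * nn + p + x))) :=
          mul_le_mul_of_nonneg_right (by linarith) h2
  have k5 : κ / 300000 * (Y * x) ≤ 1 / 300000 * (Y * x) :=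
    mul_le_mul_of_nonneg_right (by linarith) (by positivity)
  have k6 : κ / 300000 * (Y * (2 * (Y * (1 / 2 + 2 * (b + m))) - Y))
      ≤ Y ^ 2 * (κ / 10000 * (b + m)) := by
    have : 0 ≤ Y ^ 2 * κ * (b + m) := by positivity
    nlinarith
  have k7 : 1 / 300000 * (Y * (10 * (2 * nn + p + x))) + 1 / 300000 * (Y * x)
      ≤ Y / 4 * (1 / 5000 * (2 * nn + p + x)) := by
    have h1 : 0 ≤ Y * nn := by positivity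
    have h2 : 0 ≤ Y * p := by positivity
    have h3 : 0 ≤ Y * x := by positivity
    nlinarith
  nlinarith

end Helper23.CA
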